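import Mathlib
import Pool.Agent.H341R2.WeilSharp

/-!
# Values of the quadratic character at three differences
-/

set_option autoImplicit false

namespace Pool.Agent.X217.QB

open Finset Polynomial

variable {p : ℕ} [Fact p.Prime]

/-- the quadratic character as a real function -/
noncomputable def ch (x : ZMod p) : ℝ := ((quadraticChar (ZMod p) x : ℤ) : ℝ)

lemma ch_mul (x y : ZMod p) : ch (x * y) = ch x * ch y := by
  unfold ch
  rw [map_mul]
  push_cast
  rfl

lemma ch_zero : ch (0 : ZMod p) = 0 := by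
  unfold ch
  rw [quadraticChar_zero]
  norm_num

lemma ch_pm {x : ZMod p} (hx : x ≠ 0) : ch x = 1 ∨ ch x = -1 := by
  unfold ch
  rcases quadraticChar_dichotomy hx with h | h <;> rw [h] <;> norm_num

lemma ch_abs (x : ZMod p) : |ch x| ≤ 1 := by
  by_cases hx : x = 0
  · rw [hx, ch_zero]
    norm_num
  · rcases ch_pm hx with h | h <;> rw [h] <;> norm_num

lemma ring_ne (hp : p ≠ 2) : ringChar (ZMod p) ≠ 2 := by
  rw [ZMod.ringChar_zmod_n]
  exact hp

/-- a polynomial with a simple root is not a square -/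
lemma nsq {f : (ZMod p)[X]} {s : ZMod p} (h0 : f.eval s = 0) (h1 : f.derivative.eval s ≠ 0)
    (c : ZMod p) (h : (ZMod p)[X]) : f ≠ C c * h ^ 2 := by
  intro hf
  rw [hf] at h0 h1
  rw [eval_mul, eval_C, eval_pow, mul_eq_zero] at h0
  apply h1
  rcases h0 with h0 | h0
  · rw [h0, map_zero, zero_mul, derivative_zero, eval_zero]
  · have h2 : h.eval s = 0 := pow_eq_zero_iff (two_ne_zero) |>.1 h0
    simp [derivative_mul, derivative_pow, h2]

lemma sum_one (hp : p ≠ 2) (s : ZMod p) : ∑ x : ZMod p, ch (x - s) = 0 := by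
  unfold ch
  rw [← Int.cast_sum]
  have h := quadraticChar_sum_zero (ring_ne hp)
  have h2 : ∑ x : ZMod p, quadraticChar (ZMod p) (x - s) = ∑ x : ZMod p, quadraticChar (ZMod p) x :=
    Fintype.sum_equiv (Equiv.subRight s) _ _ fun x => rfl
  rw [h2, h]
  norm_num

lemma sum_two (hp : p ≠ 2) {s t : ZMod p} (h : s ≠ t) :
    |∑ x : ZMod p, ch (x - s) * ch (x - t)| ≤ √(p : ℝ) := by
  set f : (ZMod p)[X] := (X - C s) * (X - C t) with hf
  have hd : f.natDegree = 2 := by
    rw [hf, natDegree_mul (X_sub_C_ne_zero s) (X_sub_C_ne_zero t), natDegree_X_sub_C,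
      natDegree_X_sub_C]
  have h1 := Pool.Agent.H341R2.Sharp.weil_sharp (ring_ne hp) f (by omega) (nsq (s := s)
    (by rw [hf]; simp) (by
      rw [hf]
      simp [derivative_mul, sub_eq_zero, h]))
  rw [hd, ZMod.card] at h1
  norm_num at h1
  refine le_trans (le_of_eq ?_) h1
  congr 1
  refine Finset.sum_congr rfl fun x _ => ?_
  rw [← ch_mul, hf]
  simp [ch]

lemma sum_three (hp : p ≠ 2) {s t u : ZMod p} (h : s ≠ t) (h' : s ≠ u) :
    |∑ x : ZMod p, ch (x - s) * ch (x - t) * ch (x - u)| ≤ 2 * √(p : ℝ) := by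
  set f : (ZMod p)[X] := (X - C s) * (X - C t) * (X - C u) with hf
  have hd : f.natDegree = 3 := by
    rw [hf, natDegree_mul (mul_ne_zero (X_sub_C_ne_zero s) (X_sub_C_ne_zero t))
      (X_sub_C_ne_zero u), natDegree_mul (X_sub_C_ne_zero s) (X_sub_C_ne_zero t),
      natDegree_X_sub_C, natDegree_X_sub_C, natDegree_X_sub_C]
  have h1 := Pool.Agent.H341R2.Sharp.weil_sharp (ring_ne hp) f (by omega) (nsq (s := s)
    (by rw [hf]; simp) (by
      rw [hf]
      simp [derivative_mul, sub_eq_zero, h, h']))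
  rw [hd, ZMod.card] at h1
  norm_num at h1
  refine le_trans (le_of_eq ?_) h1
  congr 1
  refine Finset.sum_congr rfl fun x _ => ?_
  rw [← ch_mul, ← ch_mul, hf]
  simp [ch]

/-- all the signs occur -/
theorem signs3 (hp : 100 < p) {s t u : ZMod p} (h : s ≠ t) (h' : s ≠ u) (h'' : t ≠ u)
    {a b c : ℝ} (ha : a = 1 ∨ a = -1) (hb : b = 1 ∨ b = -1) (hc : c = 1 ∨ c = -1) :
    ∃ x : ZMod p, ch (x - s) = a ∧ ch (x - t) = b ∧ ch (x - u) = c := by
  classical
  have hp2 : p ≠ 2 := by omega
  by_contra hcon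
  push Not at hcon
  set F : ZMod p → ℝ := fun x => (1 + a * ch (x - s)) * (1 + b * ch (x - t)) *
    (1 + c * ch (x - u)) with hF
  have aa : a * a = 1 := by rcases ha with h | h <;> rw [h] <;> norm_num
  have bb : b * b = 1 := by rcases hb with h | h <;> rw [h] <;> norm_num
  have cc : c * c = 1 := by rcases hc with h | h <;> rw [h] <;> norm_num
  have absa : |a| = 1 := by rcases ha with h | h <;> rw [h] <;> norm_num
  have absb : |b| = 1 := by rcases hb with h | h <;> rw [h] <;> norm_num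
  have absc : |c| = 1 := by rcases hc with h | h <;> rw [h] <;> norm_num
  -- a factor vanishes
  have hz : ∀ {a' y : ℝ}, (a' = 1 ∨ a' = -1) → (y = 1 ∨ y = -1) → y ≠ a' → 1 + a' * y = 0 := by
    rintro a' y (rfl | rfl) (rfl | rfl) hne
    · exact absurd rfl hne
    · norm_num
    · norm_num
    · exact absurd rfl hne
  have hb2 : ∀ {a' : ℝ} (y : ZMod p), |a'| = 1 → 0 ≤ 1 + a' * ch y ∧ 1 + a' * ch y ≤ 2 := by
    intro a' y ha'
    have h1 : |a' * ch y| ≤ 1 := by
      rw [abs_mul, ha', one_mul]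
      exact ch_abs y
    rw [abs_le] at h1
    constructor <;> linarith
  have h0 : ∀ x : ZMod p, F x ≤ (if x = s then 4 else 0) + (if x = t then 4 else 0) +
      (if x = u then 4 else 0) := by
    intro x
    obtain ⟨a1, a2⟩ := hb2 (x - s) absa
    obtain ⟨b1, b2⟩ := hb2 (x - t) absb
    obtain ⟨c1, c2⟩ := hb2 (x - u) absc
    have hnn : (0 : ℝ) ≤ (if x = s then 4 else 0) + (if x = t then 4 else 0) +
      (if x = u then 4 else 0) := by positivity
    by_cases hxs : x = s
    · have e1 : F x = (1 + b * ch (x - t)) * (1 + c * ch (x - u)) := by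
        rw [hF]
        simp only
        rw [hxs, sub_self, ch_zero, mul_zero, add_zero, one_mul]
      rw [e1, if_pos hxs]
      have : (1 + b * ch (x - t)) * (1 + c * ch (x - u)) ≤ 2 * 2 :=
        mul_le_mul b2 c2 c1 (by norm_num)
      have h5 : (0 : ℝ) ≤ (if x = t then 4 else 0) + (if x = u then 4 else 0) := by positivity
      linarith
    by_cases hxt : x = t
    · have e1 : F x = (1 + a * ch (x - s)) * (1 + c * ch (x - u)) := by
        rw [hF]
        simp only
        rw [hxt, sub_self, ch_zero, mul_zero, add_zero, mul_one]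
      rw [e1, if_pos hxt]
      have : (1 + a * ch (x - s)) * (1 + c * ch (x - u)) ≤ 2 * 2 :=
        mul_le_mul a2 c2 c1 (by norm_num)
      have h5 : (0 : ℝ) ≤ (if x = s then 4 else 0) + (if x = u then 4 else 0) := by positivity
      linarith
    by_cases hxu : x = u
    · have e1 : F x = (1 + a * ch (x - s)) * (1 + b * ch (x - t)) := by
        rw [hF]
        simp only
        rw [hxu, sub_self, ch_zero, mul_zero, add_zero, mul_one]
      rw [e1, if_pos hxu]
      have : (1 + a * ch (x - s)) * (1 + b * ch (x - t)) ≤ 2 * 2 :=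
        mul_le_mul a2 b2 b1 (by norm_num)
      have h5 : (0 : ℝ) ≤ (if x = s then 4 else 0) + (if x = t then 4 else 0) := by positivity
      linarith
    have hF0 : F x = 0 := by
      rw [hF]
      simp only
      have ps := ch_pm (sub_ne_zero.2 hxs)
      have pt := ch_pm (sub_ne_zero.2 hxt)
      have pu := ch_pm (sub_ne_zero.2 hxu)
      by_cases h1 : ch (x - s) = a
      · by_cases h2 : ch (x - t) = b
        · rw [hz hc pu (hcon x h1 h2), mul_zero]
        · rw [hz hb pt h2, mul_zero, zero_mul]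
      · rw [hz ha ps h1, zero_mul, zero_mul]
    rw [hF0]
    exact hnn
  have h1 : ∑ x, F x ≤ 12 := by
    refine (Finset.sum_le_sum fun x _ => h0 x).trans ?_
    rw [Finset.sum_add_distrib, Finset.sum_add_distrib, Finset.sum_ite_eq' univ s,
      Finset.sum_ite_eq' univ t, Finset.sum_ite_eq' univ u]
    simp
    norm_num
  have h2 : ∑ x, F x = p + a * b * ∑ x, ch (x - s) * ch (x - t) +
      a * c * ∑ x, ch (x - s) * ch (x - u) + b * c * ∑ x, ch (x - t) * ch (x - u) +
      a * b * c * ∑ x, ch (x - s) * ch (x - t) * ch (x - u) := by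
    have e1 : ∀ x, F x = 1 + a * ch (x - s) + b * ch (x - t) + c * ch (x - u) +
        a * b * (ch (x - s) * ch (x - t)) + a * c * (ch (x - s) * ch (x - u)) +
        b * c * (ch (x - t) * ch (x - u)) +
        a * b * c * (ch (x - s) * ch (x - t) * ch (x - u)) := by
      intro x
      rw [hF]
      ring
    simp only [e1, Finset.sum_add_distrib, ← Finset.mul_sum, sum_one hp2]
    simp
  have k1 := sum_two hp2 h
  have k2 := sum_two hp2 h'
  have k3 := sum_two hp2 h''
  have k4 := sum_three hp2 h h'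
  set σ1 := ∑ x : ZMod p, ch (x - s) * ch (x - t)
  set σ2 := ∑ x : ZMod p, ch (x - s) * ch (x - u)
  set σ3 := ∑ x : ZMod p, ch (x - t) * ch (x - u)
  set σ4 := ∑ x : ZMod p, ch (x - s) * ch (x - t) * ch (x - u)
  have m1 : |a * b * σ1| ≤ √(p : ℝ) := by
    rw [abs_mul, abs_mul, absa, absb, one_mul, one_mul]
    exact k1
  have m2 : |a * c * σ2| ≤ √(p : ℝ) := by
    rw [abs_mul, abs_mul, absa, absc, one_mul, one_mul]
    exact k2
  have m3 : |b * c * σ3| ≤ √(p : ℝ) := by
    rw [abs_mul, abs_mul, absb, absc, one_mul, one_mul]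
    exact k3
  have m4 : |a * b * c * σ4| ≤ 2 * √(p : ℝ) := by
    rw [abs_mul, abs_mul, abs_mul, absa, absb, absc, one_mul, one_mul, one_mul]
    exact k4
  rw [h2] at h1
  have hs : (10 : ℝ) ≤ √(p : ℝ) := by
    apply Real.le_sqrt_of_sq_le
    have : (100 : ℝ) < p := by exact_mod_cast hp
    linarith
  have hss : √(p : ℝ) * √(p : ℝ) = p := Real.mul_self_sqrt (Nat.cast_nonneg _)
  have n1 := (abs_le.1 m1).1
  have n2 := (abs_le.1 m2).1
  have n3 := (abs_le.1 m3).1
  have n4 := (abs_le.1 m4).1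
  nlinarith

theorem signs2 (hp : 100 < p) {s t : ZMod p} (h : s ≠ t)
    {a b : ℝ} (ha : a = 1 ∨ a = -1) (hb : b = 1 ∨ b = -1) :
    ∃ x : ZMod p, ch (x - s) = a ∧ ch (x - t) = b := by
  classical
  obtain ⟨u, hu⟩ : ∃ u : ZMod p, u ∉ ({s, t} : Finset (ZMod p)) := by
    by_contra hcon
    push Not at hcon
    have h1 : (univ : Finset (ZMod p)) ⊆ {s, t} := fun x _ => hcon x
    have h2 := card_le_card h1
    rw [card_univ, ZMod.card] at h2
    have h3 := Finset.card_le_two (a := s) (b := t)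
    omega
  rw [mem_insert, mem_singleton, not_or] at hu
  obtain ⟨x, h1, h2, -⟩ := signs3 hp h (Ne.symm hu.1) (Ne.symm hu.2) ha hb (Or.inl rfl)
  exact ⟨x, h1, h2⟩

end Pool.Agent.X217.QB
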