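import Mathlib
import Pool.Agent.X217.QB.Chr
import Pool.Agent.TH841.LS.Lin

/-!
# Local points over quadratic extensions
-/

set_option autoImplicit false

namespace Pool.Agent.X217.QB

open Finset
open Pool.Agent.TH841.LS.LINf (padic_sq padic_sq2)

/-- the algebra `R[√D]` -/
abbrev KR (R : Type) [CommRing R] (D : ℤ) : Type := QuadraticAlgebra R (D : R) 0

/-- there is an `x` such that the `x - e i` are the `d i` up to squares of units -/
def Lc (R : Type) [CommRing R] (e d : Fin 3 → ℤ) : Prop :=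
  ∃ x : R, ∀ i, ∃ w : R, IsUnit w ∧ (x - (e i : R)) * (d i : R) = w ^ 2

lemma Lc.map {R S : Type} [CommRing R] [CommRing S] (f : R →+* S) {e d : Fin 3 → ℤ}
    (h : Lc R e d) : Lc S e d := by
  obtain ⟨x, hx⟩ := h
  refine ⟨f x, fun i => ?_⟩
  obtain ⟨w, h1, h2⟩ := hx i
  refine ⟨f w, h1.map f, ?_⟩
  rw [← map_pow, ← h2, map_mul, map_sub, map_intCast, map_intCast]

variable {p : ℕ} [hp : Fact p.Prime]

/-- an even power of `p` times a square modulo `p` -/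
def Sqp (p : ℕ) [Fact p.Prime] (n : ℤ) : Prop :=
  ∃ (k : ℕ) (c : ℤ), n = (p : ℤ) ^ (2 * k) * c ∧ ch (c : ZMod p) = 1

/-- an even power of `p` times a unit -/
def Un (p : ℕ) (n : ℤ) : Prop :=
  ∃ (k : ℕ) (c : ℤ), n = (p : ℤ) ^ (2 * k) * c ∧ (c : ZMod p) ≠ 0

lemma ch_ne {x : ZMod p} (h : ch x = 1) : x ≠ 0 := by
  rintro rfl
  rw [ch_zero] at h
  norm_num at h

lemma ch_sq {x : ZMod p} (h : ch x = 1) : IsSquare x := by
  have h1 : quadraticChar (ZMod p) x = 1 := by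
    unfold ch at h
    exact_mod_cast h
  exact (quadraticChar_one_iff_isSquare (ch_ne h)).1 h1

lemma ch_nsq {x : ZMod p} (hx : x ≠ 0) (h : ¬ IsSquare x) : ch x = -1 := by
  rcases ch_pm hx with h1 | h1
  · exact absurd (ch_sq h1) h
  · exact h1

lemma ndvd {c : ℤ} (h : (c : ZMod p) ≠ 0) : ¬ (p : ℤ) ∣ c :=
  fun hd => h ((ZMod.intCast_zmod_eq_zero_iff_dvd _ _).2 hd)

lemma Sqp.padic (hp2 : p ≠ 2) {n : ℤ} (h : Sqp p n) : ∃ w : ℚ_[p], IsUnit w ∧ (n : ℚ_[p]) = w ^ 2 := by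
  obtain ⟨k, c, h1, h2⟩ := h
  obtain ⟨r, hr⟩ := padic_sq hp2 (ndvd (ch_ne h2)) (ch_sq h2)
  have hc0 : (c : ℚ_[p]) ≠ 0 := by
    intro h0
    apply ndvd (ch_ne h2)
    have : c = 0 := by exact_mod_cast h0
    rw [this]
    exact dvd_zero _
  have hr0 : r ≠ 0 := by
    rintro rfl
    rw [mul_zero] at hr
    exact hc0 hr
  have hp0 : (p : ℚ_[p]) ≠ 0 := by exact_mod_cast hp.out.ne_zero
  refine ⟨(p : ℚ_[p]) ^ k * r, (mul_ne_zero (pow_ne_zero _ hp0) hr0).isUnit, ?_⟩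
  rw [h1]
  push_cast
  rw [hr]
  ring

lemma LcA (hp2 : p ≠ 2) {e d : Fin 3 → ℤ} (h : ∃ x : ℤ, ∀ l, Sqp p ((x - e l) * d l)) :
    Lc ℚ_[p] e d := by
  obtain ⟨x, hx⟩ := h
  refine ⟨(x : ℚ_[p]), fun i => ?_⟩
  obtain ⟨w, h1, h2⟩ := (hx i).padic hp2
  refine ⟨w, h1, ?_⟩
  rw [← h2]
  push_cast
  ring

lemma Un.quad (hp2 : p ≠ 2) {D : ℤ} (hD : ¬ IsSquare (D : ZMod p)) {n : ℤ} (h : Un p n) :
    ∃ w : KR ℚ_[p] D, IsUnit w ∧ (n : KR ℚ_[p] D) = w ^ 2 := by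
  obtain ⟨k, c, h1, h2⟩ := h
  have hD0 : (D : ZMod p) ≠ 0 := by
    intro h0
    apply hD
    rw [h0]
    exact ⟨0, by ring⟩
  by_cases hc : IsSquare (c : ZMod p)
  · have h3 : ch (c : ZMod p) = 1 := by
      rcases ch_pm h2 with h4 | h4
      · exact h4
      · exfalso
        have h5 : quadraticChar (ZMod p) (c : ZMod p) = 1 :=
          (quadraticChar_one_iff_isSquare h2).2 hc
        unfold ch at h4
        rw [h5] at h4
        norm_num at h4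
    obtain ⟨w, w1, w2⟩ := Sqp.padic hp2 (⟨k, c, h1, h3⟩ : Sqp p n)
    refine ⟨algebraMap ℚ_[p] (KR ℚ_[p] D) w, w1.map _, ?_⟩
    rw [← map_pow, ← w2, map_intCast]
  · have h3 : ch ((c * D : ℤ) : ZMod p) = 1 := by
      push_cast
      rw [ch_mul, ch_nsq h2 hc, ch_nsq hD0 hD]
      norm_num
    obtain ⟨r, r1, r2⟩ := Sqp.padic hp2 (⟨0, c * D, by ring, h3⟩ : Sqp p (c * D))
    have hDp : (D : ℚ_[p]) ≠ 0 := by
      intro h0
      have : D = 0 := by exact_mod_cast h0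
      apply hD0
      rw [this, Int.cast_zero]
    have hp0 : (p : ℚ_[p]) ≠ 0 := by exact_mod_cast hp.out.ne_zero
    set w : KR ℚ_[p] D := ⟨0, (p : ℚ_[p]) ^ k * r / D⟩ with hw
    have hww : (n : KR ℚ_[p] D) = w ^ 2 := by
      have e1 : (n : ℚ_[p]) = (p : ℚ_[p]) ^ (2 * k) * c := by
        rw [h1]
        push_cast
        ring
      have e2 : (c : ℚ_[p]) * D = r ^ 2 := by
        rw [← r2]
        push_cast
        ring
      rw [sq, ← QuadraticAlgebra.C_intCast]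
      ext
      · simp only [QuadraticAlgebra.re_C, QuadraticAlgebra.re_mul, hw]
        rw [e1]
        field_simp
        linear_combination (p : ℚ_[p]) ^ (2 * k) * e2
      · simp [QuadraticAlgebra.im_C, QuadraticAlgebra.im_mul, hw]
    refine ⟨w, ?_, hww⟩
    have hn0 : (n : ℚ_[p]) ≠ 0 := by
      intro h0
      have h6 : n = 0 := by exact_mod_cast h0
      rw [h6] at h1
      have h7 : c = 0 := by
        rcases mul_eq_zero.1 h1.symm with h8 | h8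
        · exact absurd h8 (pow_ne_zero _ (by exact_mod_cast hp.out.ne_zero))
        · exact h8
      apply h2
      rw [h7, Int.cast_zero]
    have hu : IsUnit (n : KR ℚ_[p] D) := by
      have := hn0.isUnit.map (algebraMap ℚ_[p] (KR ℚ_[p] D))
      rwa [map_intCast] at this
    rw [hww] at hu
    exact (isUnit_pow_iff two_ne_zero).1 hu

lemma LcB (hp2 : p ≠ 2) {D : ℤ} (hD : ¬ IsSquare (D : ZMod p)) {e d : Fin 3 → ℤ}
    (h : ∃ x : ℤ, ∀ l, Un p ((x - e l) * d l)) : Lc (KR ℚ_[p] D) e d := by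
  obtain ⟨x, hx⟩ := h
  refine ⟨(x : KR ℚ_[p] D), fun i => ?_⟩
  obtain ⟨w, h1, h2⟩ := (hx i).quad hp2 hD
  refine ⟨w, h1, ?_⟩
  rw [← h2]
  push_cast
  ring

/-- the trivial classes -/
lemma LcC {e d : Fin 3 → ℤ} (h : ∀ l, ∃ w : ℚ_[p], IsUnit w ∧ (d l : ℚ_[p]) = w ^ 2) :
    Lc ℚ_[p] e d := by
  have hp0 : (p : ℚ_[p]) ≠ 0 := by exact_mod_cast hp.out.ne_zero
  have h8 : (8 : ℚ_[p]) ≠ 0 := by norm_num
  refine ⟨1 / (8 * p) ^ 2, fun i => ?_⟩
  obtain ⟨w, w1, w2⟩ := h i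
  obtain ⟨r, hr⟩ : IsSquare ((1 - 64 * (p : ℤ) ^ 2 * e i : ℤ) : ℚ_[p]) := by
    by_cases hp2 : p = 2
    · subst hp2
      apply padic_sq2
      omega
    · have hz : ((1 - 64 * (p : ℤ) ^ 2 * e i : ℤ) : ZMod p) = 1 := by
        push_cast
        rw [ZMod.natCast_self]
        ring
      refine padic_sq hp2 ?_ ?_
      · intro hd
        rw [← ZMod.intCast_zmod_eq_zero_iff_dvd, hz] at hd
        exact one_ne_zero hd
      · rw [hz]
        exact ⟨1, by ring⟩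
  have hn : (1 - 64 * (p : ℤ) ^ 2 * e i : ℤ) ≠ 0 := by
    intro h0
    have h1 : (64 * ((p : ℤ) ^ 2 * e i)) = 1 := by linarith
    have := Int.eq_one_or_neg_one_of_mul_eq_one h1
    omega
  have hr0 : r ≠ 0 := by
    rintro rfl
    rw [mul_zero] at hr
    exact hn (by exact_mod_cast hr)
  refine ⟨r / (8 * p) * w, (div_ne_zero hr0 (mul_ne_zero h8 hp0)).isUnit.mul w1, ?_⟩
  rw [w2]
  have e1 : (1 / (8 * (p : ℚ_[p])) ^ 2 - (e i : ℚ_[p])) = (r * r) / (8 * p) ^ 2 := by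
    rw [← hr]
    push_cast
    field_simp
    ring
  rw [e1]
  ring

lemma LcR {e d : Fin 3 → ℤ} (h : ∀ l, 0 < d l) : Lc ℝ e d := by
  refine ⟨|(e 0 : ℝ)| + |(e 1 : ℝ)| + |(e 2 : ℝ)| + 1, fun i => ?_⟩
  have h1 : (0 : ℝ) < (|(e 0 : ℝ)| + |(e 1 : ℝ)| + |(e 2 : ℝ)| + 1 - e i) * d i := by
    apply mul_pos
    · have a0 := abs_nonneg (e 0 : ℝ)
      have a1 := abs_nonneg (e 1 : ℝ)
      have a2 := abs_nonneg (e 2 : ℝ)
      have b0 := le_abs_self (e 0 : ℝ)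
      have b1 := le_abs_self (e 1 : ℝ)
      have b2 := le_abs_self (e 2 : ℝ)
      fin_cases i
      · show (0 : ℝ) < _ - ((e 0 : ℤ) : ℝ)
        linarith
      · show (0 : ℝ) < _ - ((e 1 : ℤ) : ℝ)
        linarith
      · show (0 : ℝ) < _ - ((e 2 : ℤ) : ℝ)
        linarith
    · exact_mod_cast h i
  refine ⟨√((|(e 0 : ℝ)| + |(e 1 : ℝ)| + |(e 2 : ℝ)| + 1 - e i) * d i),
    (Real.sqrt_pos.2 h1).ne'.isUnit, ?_⟩
  rw [Real.sq_sqrt h1.le]

/-! ### the existence of the points -/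

lemma exists_lift (x : ZMod p) : ∃ y : ℤ, (y : ZMod p) = x := ZMod.intCast_surjective x

/-- good primes -/
lemma good (h100 : 100 < p) {e d : Fin 3 → ℤ}
    (h01 : (e 0 : ZMod p) ≠ e 1) (h02 : (e 0 : ZMod p) ≠ e 2) (h12 : (e 1 : ZMod p) ≠ e 2)
    (hd : ∀ l, (d l : ZMod p) ≠ 0) : ∃ x : ℤ, ∀ l, Sqp p ((x - e l) * d l) := by
  obtain ⟨x, x0, x1, x2⟩ := signs3 h100 h01 h02 h12 (ch_pm (hd 0)) (ch_pm (hd 1)) (ch_pm (hd 2))
  obtain ⟨y, rfl⟩ := exists_lift x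
  have key : ∀ l, ch ((y : ZMod p) - (e l : ZMod p)) = ch (d l : ZMod p) := by
    intro l
    fin_cases l
    · exact x0
    · exact x1
    · exact x2
  refine ⟨y, fun l => ⟨0, (y - e l) * d l, by ring, ?_⟩⟩
  push_cast
  rw [ch_mul, key l]
  rcases ch_pm (hd l) with h | h <;> rw [h] <;> norm_num

/-- points of the first type -/
lemma type1 (h100 : 100 < p) {e d : Fin 3 → ℤ} {i j k : Fin 3} (hijk : ∀ l, l = i ∨ l = j ∨ l = k)
    (hij : (e i : ZMod p) = e j) (hjk : (e j : ZMod p) ≠ e k)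
    (hd : ∀ l, (d l : ZMod p) ≠ 0) (hs : ch (d i : ZMod p) = ch (d j : ZMod p)) :
    ∃ x : ℤ, ∀ l, Sqp p ((x - e l) * d l) := by
  obtain ⟨x, x0, x1⟩ := signs2 h100 hjk (ch_pm (hd j)) (ch_pm (hd k))
  obtain ⟨y, rfl⟩ := exists_lift x
  have key : ∀ l, ch ((y : ZMod p) - (e l : ZMod p)) = ch (d l : ZMod p) := by
    intro l
    rcases hijk l with rfl | rfl | rfl
    · rw [hij, hs]
      exact x0
    · exact x0
    · exact x1
  refine ⟨y, fun l => ⟨0, (y - e l) * d l, by ring, ?_⟩⟩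
  push_cast
  rw [ch_mul, key l]
  rcases ch_pm (hd l) with h | h <;> rw [h] <;> norm_num

/-- two signs at `y` and `y - a` -/
lemma twoSigns (h100 : 100 < p) {a : ZMod p} {s t : ℝ} (hs : s = 1 ∨ s = -1) (ht : t = 1 ∨ t = -1)
    (h : a ≠ 0 ∨ s = t) : ∃ y : ℤ, ch (y : ZMod p) = s ∧ ch ((y : ZMod p) - a) = t := by
  by_cases ha : a = 0
  · have hst : s = t := h.resolve_left (fun h => h ha)
    obtain ⟨x, x0, x1⟩ := signs2 h100 (show (0 : ZMod p) ≠ 1 from zero_ne_one) hs hs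
    obtain ⟨y, rfl⟩ := exists_lift x
    rw [sub_zero] at x0
    refine ⟨y, x0, ?_⟩
    rw [ha, sub_zero, x0, hst]
  · obtain ⟨x, x0, x1⟩ := signs2 h100 (Ne.symm ha) hs ht
    obtain ⟨y, rfl⟩ := exists_lift x
    rw [sub_zero] at x0
    exact ⟨y, x0, x1⟩

/-- points of the second type -/
lemma type2 (h100 : 100 < p) {e d : Fin 3 → ℤ} {i j k : Fin 3} (hijk : ∀ l, l = i ∨ l = j ∨ l = k)
    {a di dj : ℤ} {l δ h : ℕ} (hl : 1 ≤ l) (hlδ : l + δ = 2 * h)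
    (ha : e i - e j = (p : ℤ) ^ l * a) (hdi : d i = (p : ℤ) ^ δ * di)
    (hdj : d j = (p : ℤ) ^ δ * dj) (di0 : (di : ZMod p) ≠ 0) (dj0 : (dj : ZMod p) ≠ 0)
    (hk : ch (((e j - e k) * d k : ℤ) : ZMod p) = 1)
    (hs : (a : ZMod p) ≠ 0 ∨ ch (dj : ZMod p) = ch (di : ZMod p)) :
    ∃ x : ℤ, ∀ l, Sqp p ((x - e l) * d l) := by
  obtain ⟨y, y1, y2⟩ := twoSigns h100 (ch_pm dj0) (ch_pm di0) hs
  refine ⟨e j + (p : ℤ) ^ l * y, fun t => ?_⟩
  rcases hijk t with rfl | rfl | rfl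
  · refine ⟨h, (y - a) * di, ?_, ?_⟩
    · rw [hdi, ← hlδ, pow_add]
      linear_combination (-((p : ℤ) ^ δ * di)) * ha
    · push_cast
      rw [ch_mul, y2]
      rcases ch_pm di0 with h | h <;> rw [h] <;> norm_num
  · refine ⟨h, y * dj, ?_, ?_⟩
    · rw [hdj, ← hlδ, pow_add]
      ring
    · push_cast
      rw [ch_mul, y1]
      rcases ch_pm dj0 with h | h <;> rw [h] <;> norm_num
  · refine ⟨0, (e j + (p : ℤ) ^ l * y - e t) * d t, by ring, ?_⟩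
    have e1 : (((e j + (p : ℤ) ^ l * y - e t) * d t : ℤ) : ZMod p) =
        (((e j - e t) * d t : ℤ) : ZMod p) := by
      push_cast
      rw [ZMod.natCast_self, zero_pow (by omega)]
      ring
    rw [e1]
    exact hk

/-- inert primes, first type -/
lemma inert1 (h100 : 100 < p) {e d : Fin 3 → ℤ} {i j k : Fin 3} (hijk : ∀ l, l = i ∨ l = j ∨ l = k)
    (hij : (e i : ZMod p) = e j) (hjk : (e j : ZMod p) ≠ e k)
    (hd : ∀ l, (d l : ZMod p) ≠ 0) : ∃ x : ℤ, ∀ l, Un p ((x - e l) * d l) := by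
  obtain ⟨x, x0, x1⟩ := signs2 h100 hjk (Or.inl rfl) (Or.inl rfl)
  obtain ⟨y, rfl⟩ := exists_lift x
  have key : ∀ l, (y : ZMod p) - (e l : ZMod p) ≠ 0 := by
    intro l
    rcases hijk l with rfl | rfl | rfl
    · rw [hij]
      exact ch_ne x0
    · exact ch_ne x0
    · exact ch_ne x1
  refine ⟨y, fun l => ⟨0, (y - e l) * d l, by ring, ?_⟩⟩
  push_cast
  exact mul_ne_zero (key l) (hd l)

/-- inert primes, second type -/
lemma inert2 (h100 : 100 < p) {e d : Fin 3 → ℤ} {i j k : Fin 3} (hijk : ∀ l, l = i ∨ l = j ∨ l = k)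
    {a di dj : ℤ} (ha : e i - e j = (p : ℤ) * a) (hdi : d i = (p : ℤ) * di)
    (hdj : d j = (p : ℤ) * dj) (di0 : (di : ZMod p) ≠ 0) (dj0 : (dj : ZMod p) ≠ 0)
    (hk : (((e j - e k) * d k : ℤ) : ZMod p) ≠ 0) :
    ∃ x : ℤ, ∀ l, Un p ((x - e l) * d l) := by
  obtain ⟨y, y1, y2⟩ := twoSigns (a := (a : ZMod p)) h100 (Or.inl rfl) (Or.inl rfl) (Or.inr rfl)
  refine ⟨e j + (p : ℤ) * y, fun t => ?_⟩
  rcases hijk t with rfl | rfl | rfl
  · refine ⟨1, (y - a) * di, ?_, ?_⟩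
    · rw [hdi]
      linear_combination (-((p : ℤ) * di)) * ha
    · push_cast
      exact mul_ne_zero (ch_ne y2) di0
  · refine ⟨1, y * dj, ?_, ?_⟩
    · rw [hdj]
      ring
    · push_cast
      exact mul_ne_zero (ch_ne y1) dj0
  · refine ⟨0, (e j + (p : ℤ) * y - e t) * d t, by ring, ?_⟩
    have e1 : (((e j + (p : ℤ) * y - e t) * d t : ℤ) : ZMod p) =
        (((e j - e t) * d t : ℤ) : ZMod p) := by
      push_cast
      rw [ZMod.natCast_self]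
      ring
    rw [e1]
    exact hk

end Pool.Agent.X217.QB
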