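import Mathlib
import Pool.Agent.X217.QB.Loc

/-!
# Many classes which come from local points over a quadratic extension
-/

set_option autoImplicit false

namespace Pool.Agent.X217.QB

open Finset
open Pool.Agent.TH841.LS.LINf (padic_sq padic_sq2 sp sp_mul sp_one sq_of_sp s_prod ker_big s4 s8
  s4_mul s8_mul mod8 not_dvd_prime)

/-- the roots -/
def ee (A B : ℤ) : Fin 3 → ℤ := ![0, A, B]

/-- the root which is different from the other ones modulo `p` -/
def kap (A B : ℤ) (p : ℕ) : Fin 3 := if (p : ℤ) ∣ A then 2 else if (p : ℤ) ∣ B then 1 else 0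

def ii : Fin 3 → Fin 3 := ![1, 2, 1]
def jj : Fin 3 → Fin 3 := ![2, 0, 0]

lemma ij_all : ∀ k l : Fin 3, l = ii k ∨ l = jj k ∨ l = k := by decide

lemma ij_ne : ∀ k : Fin 3, ii k ≠ k ∧ jj k ≠ k ∧ ii k ≠ jj k := by decide

/-- the factors -/
def ff (A B : ℤ) (l : Fin 3) (q : ℕ) : ℤ := if kap A B q ≠ l then (q : ℤ) else 1

/-- the class -/
def dd (A B : ℤ) (G : Finset ℕ) (ε : G → ZMod 2) (l : Fin 3) : ℤ :=
  ∏ k : G, if ε k = 1 then ff A B l k else 1

variable {A B : ℤ} {G : Finset ℕ}

lemma prod_ff (q : ℕ) : ff A B 0 q * ff A B 1 q * ff A B 2 q = (q : ℤ) ^ 2 := by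
  unfold ff
  generalize kap A B q = k
  fin_cases k <;> simp <;> ring

lemma prod_part (T : Finset G) (ε : G → ZMod 2) :
    (∏ k ∈ T, if ε k = 1 then ff A B 0 k else 1) * (∏ k ∈ T, if ε k = 1 then ff A B 1 k else 1) *
      (∏ k ∈ T, if ε k = 1 then ff A B 2 k else 1) =
        (∏ k ∈ T, if ε k = 1 then ((k : ℕ) : ℤ) else 1) ^ 2 := by
  rw [← Finset.prod_mul_distrib, ← Finset.prod_mul_distrib, ← Finset.prod_pow]
  refine Finset.prod_congr rfl fun k _ => ?_
  split_ifs
  · exact prod_ff _
  · ring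

lemma prod_dd (ε : G → ZMod 2) : dd A B G ε 0 * dd A B G ε 1 * dd A B G ε 2 =
    (∏ k : G, if ε k = 1 then ((k : ℕ) : ℤ) else 1) ^ 2 := prod_part univ ε

lemma dd_pos (hG : ∀ p ∈ G, p.Prime) (ε : G → ZMod 2) (l : Fin 3) : 0 < dd A B G ε l := by
  unfold dd
  refine Finset.prod_pos fun k _ => ?_
  have := (hG k k.2).pos
  unfold ff
  split_ifs <;> first | exact_mod_cast this | norm_num

/-- the modified symbol for split primes -/
noncomputable def cs (A B : ℤ) (p q : ℕ) : ZMod 2 :=
  open Classical in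
  if q = p then (if IsSquare ((ee A B (jj (kap A B p)) - ee A B (kap A B p) : ℤ) : ZMod p) then 0
    else 1)
  else if ¬ IsSquare ((ee A B (jj (kap A B p)) - ee A B (kap A B p) : ℤ) : ZMod p) ∧
    Even (padicValInt p (ee A B (ii (kap A B p)) - ee A B (jj (kap A B p)))) then 0
  else sp p (ff A B (kap A B p) q)

lemma ff_dvd {p q : ℕ} (hp : p.Prime) (hq : q.Prime) (h : q ≠ p) (l : Fin 3) :
    ¬ (p : ℤ) ∣ ff A B l q := by
  unfold ff
  split_ifs
  · exact not_dvd_prime hp hq h
  · intro h1
    exact hp.one_lt.ne' (by exact_mod_cast Int.eq_one_of_dvd_one (by positivity) h1)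

lemma sp_part {p : ℕ} [hp : Fact p.Prime] (hG : ∀ p ∈ G, p.Prime) (ε : G → ZMod 2) (l : Fin 3)
    (T : Finset G) (hT : ∀ k ∈ T, (k : ℕ) ≠ p) :
    ¬ (p : ℤ) ∣ (∏ k ∈ T, if ε k = 1 then ff A B l k else 1) ∧
      sp p (∏ k ∈ T, if ε k = 1 then ff A B l k else 1) = ∑ k ∈ T, ε k * sp p (ff A B l k) :=
  s_prod (sp p) (fun a => ¬ (p : ℤ) ∣ a)
    (fun h => hp.out.one_lt.ne' (by exact_mod_cast Int.eq_one_of_dvd_one (by positivity) h))
    (sp_one p) (sp_mul p) T (fun k : G => ff A B l k) ε
    fun k hk => ff_dvd hp.out (hG k k.2) (hT k hk) l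

lemma two_part (hG : ∀ p ∈ G, p.Prime ∧ 100 < p) (ε : G → ZMod 2) (l : Fin 3)
    (h4 : ∑ k : G, ε k * s4 (ff A B l k) = 0) (h8 : ∑ k : G, ε k * s8 (ff A B l k) = 0) :
    dd A B G ε l % 8 = 1 := by
  have hodd : ∀ k ∈ (Finset.univ : Finset G), (ff A B l k) % 2 = 1 := by
    intro k _
    have h1 := (hG k k.2).1.eq_two_or_odd
    have h2 := (hG k k.2).2
    unfold ff
    split_ifs <;> omega
  have k1 := s_prod s4 (fun a => a % 2 = 1) rfl rfl s4_mul Finset.univ
    (fun k : G => ff A B l k) ε hodd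
  have k2 := s_prod s8 (fun a => a % 2 = 1) rfl rfl s8_mul Finset.univ
    (fun k : G => ff A B l k) ε hodd
  exact mod8 k1.1 (k1.2.trans h4) (k2.2.trans h8)

lemma zne {p : ℕ} {c : ℤ} (h : ¬ (p : ℤ) ∣ c) : (c : ZMod p) ≠ 0 :=
  fun h0 => h ((ZMod.intCast_zmod_eq_zero_iff_dvd _ _).1 h0)

lemma ch_of_sp {p : ℕ} [Fact p.Prime] {c : ℤ} (hc : ¬ (p : ℤ) ∣ c) :
    (sp p c = 0 → ch (c : ZMod p) = 1) ∧ (sp p c ≠ 0 → ch (c : ZMod p) = -1) := by
  constructor
  · intro h
    rcases ch_pm (zne hc) with h1 | h1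
    · exact h1
    · exfalso
      have h2 := (quadraticChar_one_iff_isSquare (zne hc)).2 (sq_of_sp h)
      unfold ch at h1
      rw [h2] at h1
      norm_num at h1
  · intro h
    refine ch_nsq (zne hc) fun h1 => h ?_
    unfold sp
    rw [if_pos h1]

open Classical in
/-- **the deterministic theorem** -/
theorem det (D A B : ℤ) (hA0 : A ≠ 0) (hB0 : B ≠ 0) (hAB0 : A ≠ B) (S G : Finset ℕ) (hS : ∀ p ∈ S, p.Prime)
    (hG : ∀ p ∈ G, p.Prime ∧ 100 < p) (hSG : ∀ p ∈ G, p ∉ S)
    (hGA : ∀ p ∈ G, (p : ℤ) ∣ A * B * (A - B) ∧ ¬ ((p : ℤ) ∣ A ∧ (p : ℤ) ∣ B))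
    (hcov : ∀ p : ℕ, p.Prime → p ∉ S → p ∉ G → 100 < p ∧ ¬ (p : ℤ) ∣ A * B * (A - B)) :
    ∃ V : Submodule (ZMod 2) (G → ZMod 2),
      (G.filter (fun p : ℕ => ¬ IsSquare ((D : ℤ) : ZMod p))).card ≤
        Module.finrank (ZMod 2) V + 3 * S.card + 6 ∧
      ∀ ε ∈ V, Lc ℝ (ee A B) (dd A B G ε) ∧
        ∀ (p : ℕ) [Fact p.Prime], Lc (KR ℚ_[p] D) (ee A B) (dd A B G ε) := by
  set Gs := G.filter (fun p : ℕ => IsSquare ((D : ℤ) : ZMod p)) with hGs
  set Gi := G.filter (fun p : ℕ => ¬ IsSquare ((D : ℤ) : ZMod p)) with hGi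
  have hcard : Gs.card + Gi.card = G.card := by
    rw [hGs, hGi]
    exact Finset.card_filter_add_card_filter_not _
  let c : (Gs ⊕ (S × Fin 3)) ⊕ (Fin 2 × Fin 3) → G → ZMod 2 := fun t q => match t with
    | Sum.inl (Sum.inl p) => cs A B p q
    | Sum.inl (Sum.inr p) => sp p.1 (ff A B p.2 q)
    | Sum.inr p => if p.1 = 0 then s4 (ff A B p.2 q) else s8 (ff A B p.2 q)
  obtain ⟨V, hV, hker⟩ := ker_big c
  refine ⟨V, ?_, ?_⟩
  · rw [Fintype.card_sum, Fintype.card_sum, Fintype.card_prod, Fintype.card_prod,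
      Fintype.card_coe, Fintype.card_coe, Fintype.card_coe, Fintype.card_fin,
      Fintype.card_fin] at hV
    omega
  intro ε hε
  have hk := hker ε hε
  have hGp : ∀ p ∈ G, p.Prime := fun p h => (hG p h).1
  refine ⟨LcR fun l => dd_pos hGp ε l, ?_⟩
  intro p hp
  by_cases hpS : p ∈ S
  · -- the bad primes
    refine Lc.map (algebraMap ℚ_[p] (KR ℚ_[p] D)) (LcC fun l => ?_)
    have hsq : IsSquare (dd A B G ε l : ℚ_[p]) := by
      by_cases hp2 : p = 2
      · subst hp2
        exact padic_sq2 (two_part hG ε l (hk (Sum.inr (0, l))) (hk (Sum.inr (1, l))))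
      · obtain ⟨k1, k2⟩ := sp_part (A := A) (B := B) (p := p) hGp ε l univ
          (fun k _ h => hSG k k.2 (h ▸ hpS))
        exact padic_sq hp2 k1 (sq_of_sp (k2.trans (hk (Sum.inl (Sum.inr (⟨p, hpS⟩, l))))))
    obtain ⟨r, hr⟩ := hsq
    have h0 : (dd A B G ε l : ℚ_[p]) ≠ 0 := by
      have := (dd_pos (A := A) (B := B) hGp ε l).ne'
      exact_mod_cast this
    refine ⟨r, ?_, by rw [hr, sq]⟩
    rw [hr] at h0
    exact (left_ne_zero_of_mul h0).isUnit
  by_cases hpG : p ∈ G
  · obtain ⟨-, h100⟩ := hG p hpG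
    have hp2 : p ≠ 2 := by omega
    have hpi : Prime (p : ℤ) := Nat.prime_iff_prime_int.1 hp.out
    set k := kap A B p with hkdef
    set i := ii k with hi
    set j := jj k with hj
    have hijk : ∀ l, l = i ∨ l = j ∨ l = k := ij_all k
    obtain ⟨hik, hjk, hij⟩ := ij_ne k
    -- the positions of the roots
    obtain ⟨hd1, hd2⟩ := hGA p hpG
    have hpos : (p : ℤ) ∣ ee A B i - ee A B j ∧ ¬ (p : ℤ) ∣ ee A B j - ee A B k := by
      by_cases hpA : (p : ℤ) ∣ A
      · have hk2 : k = 2 := by rw [hkdef, kap, if_pos hpA]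
        rw [hi, hj, hk2]
        refine ⟨?_, ?_⟩
        · show (p : ℤ) ∣ A - 0
          rwa [sub_zero]
        · show ¬ (p : ℤ) ∣ 0 - B
          rw [zero_sub, dvd_neg]
          exact fun h => hd2 ⟨hpA, h⟩
      · by_cases hpB : (p : ℤ) ∣ B
        · have hk2 : k = 1 := by rw [hkdef, kap, if_neg hpA, if_pos hpB]
          rw [hi, hj, hk2]
          refine ⟨?_, ?_⟩
          · show (p : ℤ) ∣ B - 0
            rwa [sub_zero]
          · show ¬ (p : ℤ) ∣ 0 - A
            rw [zero_sub, dvd_neg]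
            exact hpA
        · have hk2 : k = 0 := by rw [hkdef, kap, if_neg hpA, if_neg hpB]
          rw [hi, hj, hk2]
          refine ⟨?_, ?_⟩
          · show (p : ℤ) ∣ A - B
            rcases hpi.dvd_or_dvd hd1 with h | h
            · rcases hpi.dvd_or_dvd h with h | h
              · exact absurd h hpA
              · exact absurd h hpB
            · exact h
          · show ¬ (p : ℤ) ∣ B - 0
            rwa [sub_zero]
    obtain ⟨hp1, hp3⟩ := hpos
    have hzij : ((ee A B i : ℤ) : ZMod p) = (ee A B j : ℤ) := by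
      have := (ZMod.intCast_zmod_eq_zero_iff_dvd _ p).2 hp1
      push_cast at this
      exact sub_eq_zero.1 this
    have hzjk : ((ee A B j : ℤ) : ZMod p) ≠ (ee A B k : ℤ) := by
      intro h
      apply hp3
      rw [← ZMod.intCast_zmod_eq_zero_iff_dvd]
      push_cast
      rw [h, sub_self]
    -- the parts prime to `p`
    set T := (univ : Finset G).erase ⟨p, hpG⟩ with hT
    set m : Fin 3 → ℤ := fun l => ∏ q ∈ T, if ε q = 1 then ff A B l q else 1 with hm
    have hTne : ∀ q ∈ T, (q : ℕ) ≠ p := by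
      intro q hq h
      exact (mem_erase.1 hq).1 (Subtype.ext h)
    have hmu : ∀ l, ¬ (p : ℤ) ∣ m l := fun l => (sp_part hGp ε l T hTne).1
    have hms : ∀ l, sp p (m l) = ∑ q ∈ T, ε q * sp p (ff A B l q) :=
      fun l => (sp_part hGp ε l T hTne).2
    have hdd : ∀ l, dd A B G ε l = (if ε ⟨p, hpG⟩ = 1 then ff A B l p else 1) * m l := by
      intro l
      unfold dd
      rw [hm]
      simp only
      rw [hT, ← Finset.mul_prod_erase (univ : Finset G)
        (fun q : G => if ε q = 1 then ff A B l q else 1) (mem_univ ⟨p, hpG⟩)]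
    have hprod : ch (m i : ZMod p) * ch (m j : ZMod p) * ch (m k : ZMod p) = 1 := by
      have e1 : m 0 * m 1 * m 2 = (∏ q ∈ T, if ε q = 1 then ((q : ℕ) : ℤ) else 1) ^ 2 :=
        prod_part T ε
      have e2 : m i * m j * m k = m 0 * m 1 * m 2 := by
        rw [hi, hj]
        have : ∀ t : Fin 3, m (ii t) * m (jj t) * m t = m 0 * m 1 * m 2 := by
          intro t
          fin_cases t
          · show m 1 * m 2 * m 0 = _
            ring
          · show m 2 * m 0 * m 1 = _
            ring
          · show m 1 * m 0 * m 2 = _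
            ring
        exact this k
      have e3 : (((m i * m j * m k : ℤ)) : ZMod p) =
          ((∏ q ∈ T, if ε q = 1 then ((q : ℕ) : ℤ) else 1 : ℤ) : ZMod p) ^ 2 := by
        rw [e2, e1]
        push_cast
        rfl
      have e4 : ((∏ q ∈ T, if ε q = 1 then ((q : ℕ) : ℤ) else 1 : ℤ) : ZMod p) ≠ 0 := by
        intro h0
        rw [h0] at e3
        push_cast at e3
        rw [zero_pow two_ne_zero] at e3
        exact mul_ne_zero (mul_ne_zero (zne (hmu i)) (zne (hmu j))) (zne (hmu k)) e3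
      rw [← ch_mul, ← ch_mul]
      push_cast at e3
      rw [e3, sq, ch_mul]
      push_cast at e4
      rcases ch_pm e4 with h | h <;> rw [h] <;> norm_num
    have ffi : ff A B i p = p := by unfold ff; rw [if_pos (Ne.symm hik)]
    have ffj : ff A B j p = p := by unfold ff; rw [if_pos (Ne.symm hjk)]
    have ffk : ff A B k p = 1 := by unfold ff; rw [if_neg (by rw [hkdef]; simp)]
    have h01 : ∀ z : ZMod 2, z = 1 ∨ z = 0 := by decide
    by_cases hsplit : IsSquare ((D : ℤ) : ZMod p)
    · -- split primes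
      refine Lc.map (algebraMap ℚ_[p] (KR ℚ_[p] D)) (LcA hp2 ?_)
      have hpGs : p ∈ Gs := mem_filter.2 ⟨hpG, hsplit⟩
      have hker1 := hk (Sum.inl (Sum.inl ⟨p, hpGs⟩))
      rw [← Finset.add_sum_erase _ _ (mem_univ (⟨p, hpG⟩ : G)), ← hT] at hker1
      have c1 : c (Sum.inl (Sum.inl ⟨p, hpGs⟩)) ⟨p, hpG⟩ =
          if IsSquare ((ee A B j - ee A B k : ℤ) : ZMod p) then 0 else 1 := by
        show cs A B p p = _
        unfold cs
        rw [if_pos rfl]
        split_ifs <;> first | rfl | contradiction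
      rw [c1] at hker1
      have c2 : ∀ q ∈ T, c (Sum.inl (Sum.inl ⟨p, hpGs⟩)) q =
          if ¬ IsSquare ((ee A B j - ee A B k : ℤ) : ZMod p) ∧
            Even (padicValInt p (ee A B i - ee A B j)) then 0 else sp p (ff A B k q) := by
        intro q hq
        show cs A B p q = _
        unfold cs
        rw [if_neg (hTne q hq)]
        split_ifs <;> first | rfl | contradiction
      rw [Finset.sum_congr rfl fun q hq => by rw [c2 q hq]] at hker1
      set u : ℤ := ee A B j - ee A B k with hu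
      have hu0 : ¬ (p : ℤ) ∣ u := hp3
      set v := padicValInt p (ee A B i - ee A B j) with hv
      have hdiff0 : ee A B i - ee A B j ≠ 0 := by
        have h : ∀ t : Fin 3, ee A B (ii t) - ee A B (jj t) ≠ 0 := by
          intro t
          fin_cases t
          · show A - B ≠ 0
            exact sub_ne_zero.2 hAB0
          · show B - 0 ≠ 0
            rwa [sub_zero]
          · show A - 0 ≠ 0
            rwa [sub_zero]
        exact h k
      obtain ⟨a, ha⟩ : ∃ a : ℤ, ee A B i - ee A B j = (p : ℤ) ^ v * a := padicValInt_dvd _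
      have ha0 : ¬ (p : ℤ) ∣ a := by
        intro hd
        have h1 : (p : ℤ) ^ (v + 1) ∣ ee A B i - ee A B j := by
          rw [pow_succ, ha]
          exact mul_dvd_mul_left _ hd
        rw [padicValInt_dvd_iff] at h1
        rcases h1 with h1 | h1
        · exact hdiff0 h1
        · omega
      have hv1 : 1 ≤ v := by
        have h1 : (p : ℤ) ^ 1 ∣ ee A B i - ee A B j := by rwa [pow_one]
        rw [padicValInt_dvd_iff] at h1
        exact h1.resolve_left hdiff0
      rcases h01 (ε ⟨p, hpG⟩) with h1 | h0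
      · -- the class is ramified at `p`
        have di : dd A B G ε i = (p : ℤ) ^ 1 * m i := by rw [hdd, if_pos h1, ffi, pow_one]
        have dj : dd A B G ε j = (p : ℤ) ^ 1 * m j := by rw [hdd, if_pos h1, ffj, pow_one]
        have dk : dd A B G ε k = m k := by rw [hdd, if_pos h1, ffk, one_mul]
        rw [h1, one_mul] at hker1
        by_cases hsq : IsSquare ((u : ℤ) : ZMod p)
        · have hif : ¬ (¬ IsSquare ((u : ℤ) : ZMod p) ∧ Even v) := fun h => h.1 hsq
          simp only [if_neg hif, if_pos hsq, zero_add] at hker1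
          rw [← hms k] at hker1
          have hmk := (ch_of_sp (hmu k)).1 hker1
          have hcu : ch (u : ZMod p) = 1 := (ch_of_sp hu0).1 (by unfold sp; rw [if_pos hsq])
          refine type2 h100 hijk (a := (p : ℤ) ^ (v - 1) * a) (l := 1) (δ := 1) (h := 1) le_rfl
            rfl ?_ di dj (zne (hmu i)) (zne (hmu j)) ?_ (Or.inr ?_)
          · rw [ha, ← mul_assoc, ← pow_add]
            congr 2
            omega
          · rw [dk]
            push_cast
            rw [← Int.cast_sub, ← hu, ch_mul, hcu, hmk, one_mul]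
          · rw [hmk, mul_one] at hprod
            rcases ch_pm (zne (hmu i)) with h | h <;> rcases ch_pm (zne (hmu j)) with h' | h' <;>
            rw [h, h'] at hprod ⊢ <;> norm_num at hprod
        · have hcu : ch (u : ZMod p) = -1 := ch_nsq (zne hu0) hsq
          by_cases hev : Even v
          · exfalso
            have hif : (¬ IsSquare ((u : ℤ) : ZMod p) ∧ Even v) := ⟨hsq, hev⟩
            simp only [if_pos hif, if_neg hsq, mul_zero, Finset.sum_const_zero, add_zero] at hker1
            exact absurd hker1 (by decide)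
          · have hif : ¬ (¬ IsSquare ((u : ℤ) : ZMod p) ∧ Even v) := fun h => hev h.2
            simp only [if_neg hif, if_neg hsq] at hker1
            rw [← hms k] at hker1
            have hmk : ch (m k : ZMod p) = -1 := by
              refine (ch_of_sp (hmu k)).2 fun h => ?_
              rw [h] at hker1
              exact absurd hker1 (by decide)
            rw [Nat.not_even_iff_odd] at hev
            obtain ⟨t, ht⟩ := hev
            refine type2 h100 hijk (a := a) (l := v) (δ := 1) (h := t + 1) hv1 (by omega) ha di dj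
              (zne (hmu i)) (zne (hmu j)) ?_ (Or.inl (zne ha0))
            rw [dk]
            push_cast
            rw [← Int.cast_sub, ← hu, ch_mul, hcu, hmk]
            norm_num
      · -- the class is unramified at `p`
        have dl : ∀ l, dd A B G ε l = m l := by
          intro l
          rw [hdd, if_neg (by rw [h0]; decide), one_mul]
        rw [h0, zero_mul, zero_add] at hker1
        rcases ch_pm (zne (hmu k)) with hmk | hmk
        · refine type1 h100 hijk hzij hzjk (fun l => by rw [dl]; exact zne (hmu l)) ?_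
          rw [dl, dl]
          rw [hmk, mul_one] at hprod
          rcases ch_pm (zne (hmu i)) with h | h <;> rcases ch_pm (zne (hmu j)) with h' | h' <;>
          rw [h, h'] at hprod ⊢ <;> norm_num at hprod
        · by_cases hif : ¬ IsSquare ((u : ℤ) : ZMod p) ∧ Even v
          · obtain ⟨hsq, hev⟩ := hif
            have hcu : ch (u : ZMod p) = -1 := ch_nsq (zne hu0) hsq
            obtain ⟨t, ht⟩ := hev
            refine type2 h100 hijk (a := a) (l := v) (δ := 0) (h := t) hv1 (by omega) ha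
              (by rw [dl, pow_zero, one_mul]) (by rw [dl, pow_zero, one_mul])
              (zne (hmu i)) (zne (hmu j)) ?_ (Or.inl (zne ha0))
            rw [dl]
            push_cast
            rw [← Int.cast_sub, ← hu, ch_mul, hcu, hmk]
            norm_num
          · exfalso
            simp only [if_neg hif] at hker1
            rw [← hms k] at hker1
            have := (ch_of_sp (hmu k)).1 hker1
            rw [this] at hmk
            norm_num at hmk
    · -- inert primes
      refine LcB hp2 hsplit ?_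
      rcases h01 (ε ⟨p, hpG⟩) with h1 | h0
      · have di : dd A B G ε i = (p : ℤ) * m i := by rw [hdd, if_pos h1, ffi]
        have dj : dd A B G ε j = (p : ℤ) * m j := by rw [hdd, if_pos h1, ffj]
        have dk : dd A B G ε k = m k := by rw [hdd, if_pos h1, ffk, one_mul]
        obtain ⟨a, ha⟩ := hp1
        refine inert2 h100 hijk ha di dj (zne (hmu i)) (zne (hmu j)) ?_
        rw [dk]
        push_cast
        exact mul_ne_zero (sub_ne_zero.2 hzjk) (zne (hmu k))
      · have dl : ∀ l, dd A B G ε l = m l := by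
          intro l
          rw [hdd, if_neg (by rw [h0]; decide), one_mul]
        exact inert1 h100 hijk hzij hzjk fun l => by rw [dl]; exact zne (hmu l)
  · -- good primes
    obtain ⟨h100, hgood⟩ := hcov p hp.out hpS hpG
    have hp2 : p ≠ 2 := by omega
    refine Lc.map (algebraMap ℚ_[p] (KR ℚ_[p] D)) (LcA hp2 ?_)
    have hA : ¬ (p : ℤ) ∣ A := fun h => hgood ((h.mul_right B).mul_right _)
    have hB : ¬ (p : ℤ) ∣ B := fun h => hgood ((h.mul_left A).mul_right _)
    have hAB : ¬ (p : ℤ) ∣ A - B := fun h => hgood (h.mul_left _)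
    refine good h100 ?_ ?_ ?_ fun l => ?_
    · show ((0 : ℤ) : ZMod p) ≠ (A : ℤ)
      rw [Int.cast_zero]
      exact (zne hA).symm
    · show ((0 : ℤ) : ZMod p) ≠ (B : ℤ)
      rw [Int.cast_zero]
      exact (zne hB).symm
    · show ((A : ℤ) : ZMod p) ≠ (B : ℤ)
      have := zne hAB
      push_cast at this
      exact sub_ne_zero.1 this
    · exact zne (sp_part (A := A) (B := B) (p := p) hGp ε l univ
        (fun k _ h => hpG (h ▸ k.2))).1

end Pool.Agent.X217.QB
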