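import Mathlib
import Pool.Agent.X217.QB.Glob

/-!
# The classes are different over the quadratic field
-/

set_option autoImplicit false

namespace Pool.Agent.X217.QB

open Finset

variable {A B : ℤ} {G : Finset ℕ}

lemma val_dd (hG : ∀ p ∈ G, p.Prime) (ε : G → ZMod 2) (l : Fin 3) {q : ℕ} (hq : q ∈ G)
    (hl : kap A B q ≠ l) [hp : Fact q.Prime] :
    padicValRat q ((dd A B G ε l : ℤ) : ℚ) = if ε ⟨q, hq⟩ = 1 then 1 else 0 := by
  classical
  set T := (univ : Finset G).erase ⟨q, hq⟩ with hT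
  have hTne : ∀ r ∈ T, (r : ℕ) ≠ q := by
    intro r hr h
    exact (mem_erase.1 hr).1 (Subtype.ext h)
  obtain ⟨hm, -⟩ := sp_part (A := A) (B := B) (p := q) hG ε l T hTne
  set m : ℤ := ∏ k ∈ T, if ε k = 1 then ff A B l k else 1 with hmdef
  have hdd : dd A B G ε l = (if ε ⟨q, hq⟩ = 1 then ff A B l q else 1) * m := by
    unfold dd
    rw [hmdef, hT, ← Finset.mul_prod_erase (univ : Finset G)
      (fun q : G => if ε q = 1 then ff A B l q else 1) (mem_univ ⟨q, hq⟩)]
  have hm0 : m ≠ 0 := by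
    rintro h
    apply hm
    rw [h]
    exact dvd_zero _
  have hvm : padicValRat q ((m : ℤ) : ℚ) = 0 := by
    rw [padicValRat.of_int, padicValInt.eq_zero_of_not_dvd hm]
    rfl
  have hff : ff A B l q = q := by unfold ff; rw [if_pos hl]
  rw [hdd]
  split_ifs with h
  · rw [hff]
    push_cast
    rw [padicValRat.mul (by exact_mod_cast hp.out.ne_zero) (by exact_mod_cast hm0), hvm, add_zero]
    rw [padicValRat.self hp.out.one_lt]
  · rw [one_mul, hvm]

/-- **the classes are different** -/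
theorem inj {D : ℤ} (hG : ∀ p ∈ G, p.Prime) (hGD : ∀ p ∈ G, ¬ (p : ℤ) ∣ D)
    {ε ε' : G → ZMod 2} (h : ∀ l, ∃ z : KR ℚ D,
      ((dd A B G ε' l : ℤ) : KR ℚ D) = ((dd A B G ε l : ℤ) : KR ℚ D) * z ^ 2) : ε = ε' := by
  funext ⟨q, hq⟩
  have hp : Fact q.Prime := ⟨hG q hq⟩
  obtain ⟨l, hl⟩ : ∃ l : Fin 3, kap A B q ≠ l := by
    have : ∀ k : Fin 3, ∃ l, k ≠ l := by decide
    exact this _
  obtain ⟨z, hz⟩ := h l
  have e1 := congrArg QuadraticAlgebra.re hz
  have e2 := congrArg QuadraticAlgebra.im hz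
  rw [← QuadraticAlgebra.C_intCast, ← QuadraticAlgebra.C_intCast, sq] at e1 e2
  simp only [QuadraticAlgebra.re_mul, QuadraticAlgebra.im_mul, QuadraticAlgebra.re_C,
    QuadraticAlgebra.im_C, zero_mul, mul_zero, add_zero, zero_add] at e1 e2
  have hd : ((dd A B G ε l : ℤ) : ℚ) ≠ 0 := by exact_mod_cast (dd_pos hG ε l).ne'
  have hd' : ((dd A B G ε' l : ℤ) : ℚ) ≠ 0 := by exact_mod_cast (dd_pos hG ε' l).ne'
  have e3 : z.re * z.im = 0 := by
    have e4 : (dd A B G ε l : ℚ) * (z.re * z.im + z.im * z.re) = 0 := e2.symm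
    rcases mul_eq_zero.1 e4 with h | h
    · exact absurd h hd
    · linarith
  have v1 := val_dd hG ε l hq hl
  have v2 := val_dd hG ε' l hq hl
  have hD0 : padicValRat q (D : ℚ) = 0 := by
    rw [padicValRat.of_int, padicValInt.eq_zero_of_not_dvd (hGD q hq)]
    rfl
  have key : ∃ t : ℤ, padicValRat q ((dd A B G ε' l : ℤ) : ℚ) =
      padicValRat q ((dd A B G ε l : ℤ) : ℚ) + 2 * t := by
    rcases mul_eq_zero.1 e3 with h | h
    · rw [h] at e1
      have e5 : (dd A B G ε' l : ℚ) = dd A B G ε l * (D * (z.im * z.im)) := by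
        rw [e1]
        ring
      have hne : (D : ℚ) * (z.im * z.im) ≠ 0 := by
        intro h0
        rw [h0, mul_zero] at e5
        exact hd' e5
      have hz0 : z.im ≠ 0 := by
        intro h0
        apply hne
        rw [h0]
        ring
      refine ⟨padicValRat q z.im, ?_⟩
      rw [e5, padicValRat.mul hd hne, padicValRat.mul (left_ne_zero_of_mul hne)
        (mul_ne_zero hz0 hz0), padicValRat.mul hz0 hz0, hD0]
      ring
    · rw [h] at e1
      have e5 : (dd A B G ε' l : ℚ) = dd A B G ε l * (z.re * z.re) := by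
        rw [e1]
        ring
      have hz0 : z.re ≠ 0 := by
        intro h0
        rw [h0, mul_zero, mul_zero] at e5
        exact hd' e5
      refine ⟨padicValRat q z.re, ?_⟩
      rw [e5, padicValRat.mul hd (mul_ne_zero hz0 hz0), padicValRat.mul hz0 hz0]
      ring
  obtain ⟨t, ht⟩ := key
  rw [v1, v2] at ht
  have h01 : ∀ z : ZMod 2, z = 1 ∨ z = 0 := by decide
  rcases h01 (ε ⟨q, hq⟩) with h | h <;> rcases h01 (ε' ⟨q, hq⟩) with h' | h'
  · rw [h, h']
  · rw [if_pos h, if_neg (by rw [h']; decide)] at ht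
    omega
  · rw [if_pos h', if_neg (by rw [h]; decide)] at ht
    omega
  · rw [h, h']

end Pool.Agent.X217.QB
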