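import Mathlib
import Pool.Agent.X217.EK.Exc
import Pool.Agent.X217.EK.Pert
import Pool.Agent.H951R4.OD.B6

/-!
# The number of the inert bad primes
-/

set_option autoImplicit false

namespace Pool.Agent.X217.QB

open Finset Filter Topology MeasureTheory ProbabilityTheory
open Pool.Agent.X217.EK

/-- one for the inert primes -/
noncomputable def wt (D : ℤ) (p : ℕ) : ℝ :=
  open Classical in if IsSquare ((D : ℤ) : ZMod p) then 0 else 1

/-- one on the three lines -/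
noncomputable def ln (p : Pr) (r : ZMod p.1 × ZMod p.1) : ℝ :=
  open Classical in if r.1 = 0 ∨ r.2 = 0 ∨ r.1 = r.2 then 1 else 0

/-- the local function -/
noncomputable def hI (D : ℤ) (p : Pr) (r : ZMod p.1 × ZMod p.1) : ℝ := wt D p.1 * ln p r

lemma wt01 (D : ℤ) (p : ℕ) : wt D p = 0 ∨ wt D p = 1 := by
  unfold wt
  split_ifs
  · exact Or.inl rfl
  · exact Or.inr rfl

lemma hI01 (D : ℤ) (p : Pr) (r : ZMod p.1 × ZMod p.1) : hI D p r = 0 ∨ hI D p r = 1 := by
  unfold hI ln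
  rcases wt01 D p.1 with h | h <;> rw [h] <;> split_ifs <;> simp

lemma me_hI (D : ℤ) (p : Pr) : me (hI D p) = wt D p.1 * (3 / (p.1 : ℝ) - 2 / (p.1 : ℝ) ^ 2) := by
  have h1 : ∑ r, hI D p r = wt D p.1 * (3 * p.1 - 2) := by
    rw [sum_lines (hI D p) (fun a b ha hb hab => by
      unfold hI ln
      simp only
      rw [if_neg (by tauto), mul_zero])]
    have h2 : ∀ x ∈ univ.erase (0 : ZMod p.1), (hI D p (0, x) + hI D p (x, 0) + hI D p (x, x)) =
        3 * wt D p.1 := by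
      intro x _
      unfold hI ln
      simp only [true_or, or_true, if_true]
      ring
    rw [sum_congr rfl h2, sum_const, card_erase_of_mem (mem_univ _), card_univ, ZMod.card,
      nsmul_eq_mul, Nat.cast_sub p.2.one_le]
    unfold hI ln
    simp only [true_or, if_true]
    push_cast
    ring
  have hp0 : (p.1 : ℝ) ≠ 0 := by exact_mod_cast p.2.ne_zero
  unfold me avr
  rw [h1, card_R2]
  field_simp

lemma va_hI (D : ℤ) (p : Pr) : va (hI D p) = me (hI D p) - me (hI D p) ^ 2 := by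
  rw [va_eq]
  congr 1
  congr 1
  funext r
  rcases hI01 D p r with h | h <;> rw [h] <;> norm_num


lemma wt_ch {D : ℤ} {p : ℕ} (hp : p.Prime) (h2 : p ≠ 2) :
    |wt D p - (1 - Pool.Agent.H951R4.OD.ch D p) / 2| ≤ if (p : ℤ) ∣ D then 1 else 0 := by
  have : Fact p.Prime := ⟨hp⟩
  have hodd : p % 2 = 1 := hp.eq_two_or_odd.resolve_left h2
  have hch : Pool.Agent.H951R4.OD.ch D p = (legendreSym p D : ℤ) := by
    unfold Pool.Agent.H951R4.OD.ch
    rw [if_pos hodd, jacobiSym.legendreSym.to_jacobiSym]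
  rw [hch]
  split_ifs with h
  · have h1 : ((D : ℤ) : ZMod p) = 0 := (ZMod.intCast_zmod_eq_zero_iff_dvd _ _).2 h
    have h3 : legendreSym p D = 0 := (legendreSym.eq_zero_iff p D).2 h1
    rw [h3]
    unfold wt
    rw [if_pos (by rw [h1]; exact ⟨0, by ring⟩)]
    norm_num
  · have h1 : ((D : ℤ) : ZMod p) ≠ 0 := fun h0 => h ((ZMod.intCast_zmod_eq_zero_iff_dvd _ _).1 h0)
    rcases legendreSym.eq_one_or_neg_one p h1 with h3 | h3
    · rw [h3]
      unfold wt
      rw [if_pos ((legendreSym.eq_one_iff p h1).1 h3)]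
      norm_num
    · rw [h3]
      unfold wt
      rw [if_neg ((legendreSym.eq_neg_one_iff p).1 h3)]
      norm_num

lemma sum_PP (n : ℕ) (F : ℕ → ℝ) : ∑ p ∈ PP n, F p.1 =
    ∑ p ∈ Pool.Agent.H951R4.OD.PI 10 (YY n), F p := by
  unfold PP Pool.Agent.H951R4.OD.PI
  rw [sum_subtype_eq_sum_filter]
  refine sum_congr ?_ fun _ _ => rfl
  ext p
  rw [mem_filter, mem_filter, mem_Icc, mem_Ioc]
  constructor <;> rintro ⟨⟨h1, h2⟩, h3⟩ <;> exact ⟨⟨by omega, h2⟩, h3⟩

lemma sum_wt {D : ℤ} (hD : ¬ IsSquare D) : ∃ C : ℝ, 0 ≤ C ∧ ∀ n,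
    |∑ p ∈ PP n, wt D p.1 / p.1 - 1 / 2 * ∑ p ∈ PP n, (1 : ℝ) / p.1| ≤ C := by
  obtain ⟨C, hC0, hC⟩ := Pool.Agent.H951R4.OD.char_sum_fixed D hD
  have hD0 : D ≠ 0 := by
    rintro rfl
    exact hD ⟨0, by norm_num⟩
  refine ⟨C + D.natAbs, by positivity, fun n => ?_⟩
  have h1 := hC 10 (YY n)
  rw [← sum_PP n (fun q => Pool.Agent.H951R4.OD.ch D q / q)] at h1
  have h2 : |∑ p ∈ PP n, (wt D p.1 - (1 - Pool.Agent.H951R4.OD.ch D p.1) / 2) / p.1| ≤
      D.natAbs := by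
    refine (abs_sum_le_sum_abs _ _).trans ?_
    have h3 : ∑ p ∈ PP n, |(wt D p.1 - (1 - Pool.Agent.H951R4.OD.ch D p.1) / 2) / p.1| ≤
        ∑ p ∈ PP n, (if (p.1 : ℤ) ∣ D then (1 : ℝ) else 0) := by
      refine sum_le_sum fun p hp => ?_
      have hp11 := (mem_PP.1 hp).1
      have h4 := wt_ch (D := D) p.2 (by omega)
      have h5 : (1 : ℝ) ≤ p.1 := by exact_mod_cast p.2.one_le
      rw [abs_div, abs_of_nonneg (by linarith : (0 : ℝ) ≤ (p.1 : ℝ))]
      refine (div_le_self (abs_nonneg _) h5).trans h4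
    refine h3.trans ?_
    rw [sum_PP n (fun q => if (q : ℤ) ∣ D then (1 : ℝ) else 0), sum_ite, sum_const_zero, add_zero,
      sum_const, nsmul_eq_mul, mul_one]
    refine Nat.cast_le.2 ?_
    have h6 : ((Pool.Agent.H951R4.OD.PI 10 (YY n)).filter (fun q : ℕ => (q : ℤ) ∣ D)) ⊆
        Finset.Icc 1 D.natAbs := by
      intro q hq
      rw [mem_filter] at hq
      rw [mem_Icc]
      have h7 : q.Prime := (mem_filter.1 hq.1).2
      exact ⟨h7.one_le, Nat.le_of_dvd (Int.natAbs_pos.2 hD0) (Int.natCast_dvd.1 hq.2)⟩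
    have := card_le_card h6
    rwa [Nat.card_Icc, Nat.add_sub_cancel] at this
  have h3 : ∑ p ∈ PP n, wt D p.1 / p.1 - 1 / 2 * ∑ p ∈ PP n, (1 : ℝ) / p.1 =
      ∑ p ∈ PP n, (wt D p.1 - (1 - Pool.Agent.H951R4.OD.ch D p.1) / 2) / p.1 -
      1 / 2 * ∑ p ∈ PP n, Pool.Agent.H951R4.OD.ch D p.1 / p.1 := by
    rw [mul_sum, mul_sum, ← sum_sub_distrib, ← sum_sub_distrib]
    refine sum_congr rfl fun p _ => ?_
    ring
  rw [h3]
  rw [abs_le] at h1 h2 ⊢
  constructor <;> linarith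

/-- the sum of the means -/
noncomputable def SM (D : ℤ) (n : ℕ) : ℝ := ∑ p ∈ PP n, me (hI D p)

lemma me_bd (D : ℤ) (p : Pr) : 0 ≤ me (hI D p) ∧ me (hI D p) ≤ 3 / (p.1 : ℝ) := by
  rw [me_hI]
  have hp1 : (1 : ℝ) ≤ p.1 := by exact_mod_cast p.2.one_le
  have h1 : (0 : ℝ) < 1 / (p.1 : ℝ) := by positivity
  have h2 : 1 / (p.1 : ℝ) ≤ 1 := by
    rw [div_le_one (by linarith)]
    exact hp1
  have h3 : 2 / (p.1 : ℝ) ^ 2 = 2 * (1 / (p.1 : ℝ)) * (1 / (p.1 : ℝ)) := by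
    field_simp
  have h4 : 3 / (p.1 : ℝ) = 3 * (1 / (p.1 : ℝ)) := by ring
  rw [h3, h4]
  rcases wt01 D p.1 with h | h <;> rw [h] <;> constructor <;> nlinarith

lemma SM_bd {D : ℤ} (hD : ¬ IsSquare D) : ∃ C : ℝ, 0 ≤ C ∧ ∀ n,
    |SM D n - 3 / 2 * ∑ p ∈ PP n, (1 : ℝ) / p.1| ≤ C := by
  obtain ⟨C, hC0, hC⟩ := sum_wt hD
  refine ⟨3 * C + 4, by positivity, fun n => ?_⟩
  have h1 := hC n
  have h2 : SM D n = 3 * ∑ p ∈ PP n, wt D p.1 / p.1 - 2 * ∑ p ∈ PP n, wt D p.1 / (p.1 : ℝ) ^ 2 := by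
    unfold SM
    rw [mul_sum, mul_sum, ← sum_sub_distrib]
    refine sum_congr rfl fun p _ => ?_
    rw [me_hI]
    ring
  have h3 : 0 ≤ ∑ p ∈ PP n, wt D p.1 / (p.1 : ℝ) ^ 2 := by
    refine sum_nonneg fun p _ => ?_
    rcases wt01 D p.1 with h | h <;> rw [h] <;> positivity
  have h4 : ∑ p ∈ PP n, wt D p.1 / (p.1 : ℝ) ^ 2 ≤ ∑ p ∈ PP n, 1 / (p.1 : ℝ) ^ 2 := by
    refine sum_le_sum fun p _ => div_le_div_of_nonneg_right ?_ (by positivity)
    rcases wt01 D p.1 with h | h <;> rw [h] <;> norm_num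
  have h5 := sum_sq_inv n
  rw [h2]
  rw [abs_le] at h1 ⊢
  constructor <;> linarith [h1.1, h1.2]

lemma SM_lim {D : ℤ} (hD : ¬ IsSquare D) :
    Tendsto (fun n => (SM D n - 3 / 2 * ell n) / √(ell n)) atTop (𝓝 0) := by
  obtain ⟨C, hC0, hC⟩ := SM_bd hD
  have h1 : Tendsto (fun n => (SM D n - 3 / 2 * ∑ p ∈ PP n, (1 : ℝ) / p.1) / √(ell n)) atTop
      (𝓝 0) := by
    rw [tendsto_zero_iff_abs_tendsto_zero]
    refine squeeze_zero' (Eventually.of_forall fun n => abs_nonneg _) ?_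
      (by simpa using sqrt_inv.const_mul C)
    filter_upwards with n
    rw [Function.comp_apply, abs_div, abs_of_nonneg (Real.sqrt_nonneg _), div_eq_mul_inv]
    exact mul_le_mul_of_nonneg_right (hC n) (inv_nonneg.2 (Real.sqrt_nonneg _))
  have h2 := h1.add (sum_inv_PP.const_mul (3 / 2))
  rw [zero_add, mul_zero] at h2
  refine (tendsto_congr fun n => ?_).1 h2
  ring

lemma SM_ell {D : ℤ} (hD : ¬ IsSquare D) :
    Tendsto (fun n => SM D n / ell n) atTop (𝓝 (3 / 2)) := by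
  have h1 := ((SM_lim hD).mul sqrt_inv).add_const (3 / 2)
  rw [zero_mul, zero_add] at h1
  refine (tendsto_congr' ?_).1 h1
  filter_upwards [tendsto_ell.eventually_gt_atTop 0] with n hn
  have h2 : √(ell n) * √(ell n) = ell n := Real.mul_self_sqrt hn.le
  have h3 : √(ell n) ≠ 0 := (Real.sqrt_pos.2 hn).ne'
  rw [← div_eq_mul_inv, div_div, h2, sub_div, mul_div_assoc, div_self hn.ne']
  ring

/-- the sum of the variances -/
lemma SV_lim {D : ℤ} (hD : ¬ IsSquare D) (t : ℝ) :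
    Tendsto (fun n => (∑ p ∈ PP n, va (fun r => t * hI D p r)) / (3 / 2 * ell n)) atTop
      (𝓝 (t ^ 2)) := by
  have h1 : ∀ p : Pr, va (fun r => t * hI D p r) = t ^ 2 * va (hI D p) := by
    intro p
    have e1 : me (fun r => t * hI D p r) = t * me (hI D p) := avr_mul _ _ _
    unfold va
    rw [e1, ← avr_mul]
    congr 1
    funext r
    ring
  have h2 : Tendsto (fun n => (∑ p ∈ PP n, me (hI D p) ^ 2) * (ell n)⁻¹) atTop (𝓝 0) := by
    refine squeeze_zero' ?_ ?_ (by simpa using ell_inv.const_mul 18)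
    · filter_upwards [tendsto_ell.eventually_gt_atTop 0] with n hn
      exact mul_nonneg (sum_nonneg fun _ _ => sq_nonneg _) (inv_pos.2 hn).le
    · filter_upwards [tendsto_ell.eventually_gt_atTop 0] with n hn
      refine mul_le_mul_of_nonneg_right ?_ (inv_pos.2 hn).le
      have h3 : ∑ p ∈ PP n, me (hI D p) ^ 2 ≤ ∑ p ∈ PP n, 9 * (1 / (p.1 : ℝ) ^ 2) := by
        refine sum_le_sum fun p _ => ?_
        obtain ⟨a1, a2⟩ := me_bd D p
        have := pow_le_pow_left₀ a1 a2 2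
        refine this.trans (le_of_eq ?_)
        ring
      rw [← mul_sum] at h3
      linarith [sum_sq_inv n]
  have h3 := ((SM_ell hD).sub h2).const_mul (t ^ 2 * (2 / 3))
  have h4 : t ^ 2 * (2 / 3) * ((3 / 2 : ℝ) - 0) = t ^ 2 := by ring
  rw [h4] at h3
  refine (tendsto_congr fun n => ?_).1 h3
  have e2 : ∑ p ∈ PP n, va (fun r => t * hI D p r) =
      t ^ 2 * (SM D n - ∑ p ∈ PP n, me (hI D p) ^ 2) := by
    unfold SM
    rw [← sum_sub_distrib, mul_sum]
    refine sum_congr rfl fun p _ => ?_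
    rw [h1, va_hI]
  rw [e2]
  simp only [div_eq_mul_inv, mul_inv, inv_inv]
  ring

/-- the normalised statistic -/
noncomputable def ZI (D : ℤ) (n : ℕ) (x : ℤ × ℤ) (_ : Fin 1) : ℝ :=
  (∑ p ∈ PP n, (hI D p (red2 p x) - me (hI D p))) / √(3 / 2 * ell n)

lemma char_I {D : ℤ} (hD : ¬ IsSquare D) (t : Fin 1 → ℝ) : Tendsto (fun n => av (Sq n) (fun x =>
    Complex.exp (Complex.I * ((∑ i, t i * ZI D n x i : ℝ) : ℂ)))) atTop
      (𝓝 (Complex.exp (-((∑ i, t i ^ 2 : ℝ) : ℂ) / 2))) := by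
  have key := lim2 (R := fun p : Pr => ZMod p.1 × ZMod p.1) (ρ := red2) (P := PP) (Ω := Sq)
    (g := fun p r => t 0 * hI D p r) (C := |t 0|) (v := t 0 ^ 2) (s := fun n => 3 / 2 * ell n)
    (fun p r => by
      rcases hI01 D p r with h | h <;> rw [h] <;> simp)
    (tendsto_ell.const_mul_atTop (by norm_num)) (SV_lim hD (t 0)) (by
      intro k
      refine ⟨fun n => 3 * ((YY n : ℝ) ^ (2 * k) / n), ?_, ?_⟩
      · filter_upwards [eventually_gt_atTop 0, tendsto_YY.eventually_ge_atTop 1] with n hn hY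
        exact disc2 hY (fun i hi => (mem_PP.1 hi).2) 0 0 hn k
      · have h1 := (YY_pow (3 * k)).const_mul 3
        rw [mul_zero] at h1
        refine squeeze_zero (fun n => by positivity) (fun n => ?_) h1
        have h2 : ((PP n).card : ℝ) ^ k ≤ (YY n : ℝ) ^ k :=
          pow_le_pow_left₀ (Nat.cast_nonneg _) (card_PP n) k
        calc ((PP n).card : ℝ) ^ k * (3 * ((YY n : ℝ) ^ (2 * k) / n)) ≤
              (YY n : ℝ) ^ k * (3 * ((YY n : ℝ) ^ (2 * k) / n)) :=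
              mul_le_mul_of_nonneg_right h2 (by positivity)
          _ = 3 * ((YY n : ℝ) ^ (3 * k) / n) := by
              rw [show 3 * k = k + 2 * k from by ring, pow_add]
              ring)
  rw [Fin.sum_univ_one]
  refine (tendsto_congr fun n => ?_).1 key
  congr 1
  funext x
  congr 3
  rw [Fin.sum_univ_one]
  unfold ZI
  have e1 : ∀ p : Pr, me (fun r => t 0 * hI D p r) = t 0 * me (hI D p) := fun p => avr_mul _ _ _
  rw [← mul_div_assoc, mul_sum]
  congr 1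
  refine sum_congr rfl fun p _ => ?_
  rw [e1]
  ring

open Classical in
/-- **the limit law for the number of the inert bad primes** -/
theorem law_I {D : ℤ} (hD : ¬ IsSquare D) (z : ℝ) :
    Tendsto (fun n => (((Sq n).filter (fun x => ZI D n x 0 ≤ z)).card : ℝ) / (n : ℝ) ^ 2) atTop
      (𝓝 ((gaussianReal 0 1).real (Set.Iic z))) := by
  have hne : ∀ᶠ n in atTop, (Sq n).Nonempty := by
    filter_upwards [eventually_ge_atTop 1] with n hn
    refine ⟨(1, 1), ?_⟩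
    unfold Sq
    rw [mem_product, mem_Ioc]
    simp only
    omega
  have h := law hne (ZI D) (char_I hD) (fun _ => z)
  rw [Fin.prod_univ_one] at h
  refine (tendsto_congr fun n => ?_).1 h
  rw [card_Sq]
  congr 3
  refine filter_congr fun x _ => ?_
  constructor
  · intro h1
    exact h1 0
  · intro h1 i
    have : i = 0 := Subsingleton.elim _ _
    rw [this]
    exact h1

end Pool.Agent.X217.QB
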