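import Mathlib
import Pool.Agent.X217.QB.Stat
import Pool.Agent.X217.QB.Inj

/-!
# Many classes for almost all pairs
-/

set_option autoImplicit false

namespace Pool.Agent.X217.QB

open Finset Filter Topology MeasureTheory ProbabilityTheory
open Pool.Agent.X217.EK

/-- many classes, more than `2 ^ k` -/
def Big (D : ℤ) (k : ℝ) (A B : ℤ) : Prop :=
  ∃ G : Finset ℕ, (∀ p ∈ G, p.Prime) ∧ (∀ p ∈ G, ¬ (p : ℤ) ∣ D) ∧
    ∃ V : Submodule (ZMod 2) (G → ZMod 2), k < Module.finrank (ZMod 2) V ∧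
      ∀ ε ∈ V, Lc ℝ (ee A B) (dd A B G ε) ∧
        ∀ (p : ℕ) [Fact p.Prime], Lc (KR ℚ_[p] D) (ee A B) (dd A B G ε)

/-- the statistic -/
noncomputable def HH (D : ℤ) (n : ℕ) (x : ℤ × ℤ) : ℝ := ∑ p ∈ PP n, hI D p (red2 p x)

open Classical in
lemma HH_eq (D : ℤ) (n : ℕ) (x : ℤ × ℤ) : HH D n x = (((PP n).filter (fun p : Pr =>
    ¬ IsSquare ((D : ℤ) : ZMod p.1) ∧
      (((p.1 : ℕ) : ℤ) ∣ x.1 ∨ ((p.1 : ℕ) : ℤ) ∣ x.2 ∨ ((p.1 : ℕ) : ℤ) ∣ x.1 - x.2))).card : ℝ) := by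
  unfold HH
  rw [card_filter]
  push_cast
  refine sum_congr rfl fun p _ => ?_
  unfold hI wt ln red2
  simp only
  have e1 : ((x.1 : ℤ) : ZMod p.1) = 0 ↔ ((p.1 : ℕ) : ℤ) ∣ x.1 :=
    ZMod.intCast_zmod_eq_zero_iff_dvd _ _
  have e2 : ((x.2 : ℤ) : ZMod p.1) = 0 ↔ ((p.1 : ℕ) : ℤ) ∣ x.2 :=
    ZMod.intCast_zmod_eq_zero_iff_dvd _ _
  have e3 : ((x.1 : ℤ) : ZMod p.1) = ((x.2 : ℤ) : ZMod p.1) ↔ ((p.1 : ℕ) : ℤ) ∣ x.1 - x.2 := by
    rw [← ZMod.intCast_zmod_eq_zero_iff_dvd]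
    push_cast
    exact sub_eq_zero.symm
  by_cases h1 : IsSquare ((D : ℤ) : ZMod p.1)
  · simp [h1]
  · by_cases h2 : ((p.1 : ℕ) : ℤ) ∣ x.1 ∨ ((p.1 : ℕ) : ℤ) ∣ x.2 ∨ ((p.1 : ℕ) : ℤ) ∣ x.1 - x.2
    · rw [if_neg h1, if_pos (by rw [e1, e2, e3]; exact h2), if_pos ⟨h1, h2⟩]
      norm_num
    · rw [if_neg h1, if_neg (by rw [e1, e2, e3]; exact h2), if_neg (fun h => h2 h.2)]
      norm_num

/-- the set of the places where the class is trivial -/
def SS (D A B : ℤ) : Finset ℕ :=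
  ((range 101).filter Nat.Prime ∪ D.natAbs.primeFactors) ∪ (Int.gcd A B).primeFactors

open Classical in
/-- the ramified primes -/
noncomputable def Gs (D A B : ℤ) : Finset ℕ := (A * B * (A - B)).natAbs.primeFactors.filter
  (fun p : ℕ => 100 < p ∧ ¬ (p : ℤ) ∣ D ∧ ¬ ((p : ℤ) ∣ A ∧ (p : ℤ) ∣ B))

lemma mem_gcd {A B : ℤ} (hA : A ≠ 0) {p : ℕ} : p ∈ (Int.gcd A B).primeFactors ↔
    p.Prime ∧ (p : ℤ) ∣ A ∧ (p : ℤ) ∣ B := by
  rw [Nat.mem_primeFactors_of_ne_zero (by rw [Ne, Int.gcd_eq_zero_iff]; exact fun h => hA h.1)]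
  show p.Prime ∧ p ∣ Nat.gcd A.natAbs B.natAbs ↔ _
  rw [Nat.dvd_gcd_iff, ← Int.natCast_dvd, ← Int.natCast_dvd]


lemma mem_Gs {D A B : ℤ} (hA : A ≠ 0) (hB : B ≠ 0) (hAB : A ≠ B) {p : ℕ} :
    p ∈ Gs D A B ↔ p.Prime ∧ (p : ℤ) ∣ A * B * (A - B) ∧ 100 < p ∧ ¬ (p : ℤ) ∣ D ∧
      ¬ ((p : ℤ) ∣ A ∧ (p : ℤ) ∣ B) := by
  unfold Gs
  rw [mem_filter, Nat.mem_primeFactors_of_ne_zero (by
    rw [Ne, Int.natAbs_eq_zero]
    exact mul_ne_zero (mul_ne_zero hA hB) (sub_ne_zero.2 hAB)), ← Int.natCast_dvd, and_assoc]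

lemma mem_SS {D A B : ℤ} (hD : D ≠ 0) (hA : A ≠ 0) {p : ℕ} : p ∈ SS D A B ↔
    p.Prime ∧ (p ≤ 100 ∨ (p : ℤ) ∣ D ∨ ((p : ℤ) ∣ A ∧ (p : ℤ) ∣ B)) := by
  unfold SS
  rw [mem_union, mem_union, mem_gcd hA, mem_filter, mem_range,
    Nat.mem_primeFactors_of_ne_zero (by rwa [Ne, Int.natAbs_eq_zero]), ← Int.natCast_dvd]
  constructor
  · rintro ((⟨h1, h2⟩ | ⟨h1, h2⟩) | ⟨h1, h2⟩)
    · exact ⟨h2, Or.inl (by omega)⟩
    · exact ⟨h1, Or.inr (Or.inl h2)⟩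
    · exact ⟨h1, Or.inr (Or.inr h2)⟩
  · rintro ⟨h1, h2 | h2 | h2⟩
    · exact Or.inl (Or.inl ⟨by omega, h1⟩)
    · exact Or.inl (Or.inr ⟨h1, h2⟩)
    · exact Or.inr ⟨h1, h2⟩

lemma card_SS (D A B : ℤ) : (SS D A B).card ≤ 101 + D.natAbs + (Int.gcd A B).primeFactors.card := by
  unfold SS
  refine (card_union_le _ _).trans (Nat.add_le_add_right ((card_union_le _ _).trans
    (Nat.add_le_add ?_ ?_)) _)
  · refine (card_filter_le _ _).trans ?_
    rw [card_range]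
  · have h : D.natAbs.primeFactors ⊆ Finset.Icc 1 D.natAbs := by
      intro q hq
      rw [mem_Icc]
      exact ⟨(Nat.prime_of_mem_primeFactors hq).one_le, Nat.le_of_mem_primeFactors hq⟩
    have := card_le_card h
    rwa [Nat.card_Icc, Nat.add_sub_cancel] at this

lemma card_gcd {n : ℕ} {x : ℤ × ℤ} (hx : x ∈ Sq n) :
    (Int.gcd x.1 x.2).primeFactors.card ≤ 11 + (TA n x.1 x.2).card := by
  classical
  unfold Sq at hx
  rw [mem_product, mem_Ioc, mem_Ioc] at hx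
  obtain ⟨⟨a1, a2⟩, b1, b2⟩ := hx
  have hA : x.1 ≠ 0 := by omega
  have h : (Int.gcd x.1 x.2).primeFactors ⊆ range 11 ∪ TA n x.1 x.2 := by
    intro p hp
    rw [mem_gcd hA] at hp
    obtain ⟨h1, h2, h3⟩ := hp
    rw [mem_union, mem_range]
    by_cases h4 : p < 11
    · exact Or.inl h4
    · right
      unfold TA
      rw [mem_filter, mem_filter, mem_Icc]
      refine ⟨⟨⟨by omega, ?_⟩, h1⟩, Or.inr (Or.inr (Or.inr ⟨h2, h3⟩))⟩
      have := Int.le_of_dvd a1 h2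
      omega
  refine (card_le_card h).trans ((card_union_le _ _).trans ?_)
  rw [card_range]

open Classical in
lemma HH_le {D : ℤ} {n : ℕ} {A B : ℤ} (hA : A ≠ 0) (hB : B ≠ 0)
    (hAB : A ≠ B) : HH D n (A, B) ≤
      (((Gs D A B).filter (fun p : ℕ => ¬ IsSquare ((D : ℤ) : ZMod p))).card : ℝ) + 101 +
        (Int.gcd A B).primeFactors.card := by
  rw [HH_eq]
  have h : ((PP n).filter (fun p : Pr => ¬ IsSquare ((D : ℤ) : ZMod p.1) ∧
      (((p.1 : ℕ) : ℤ) ∣ (A, B).1 ∨ ((p.1 : ℕ) : ℤ) ∣ (A, B).2 ∨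
        ((p.1 : ℕ) : ℤ) ∣ (A, B).1 - (A, B).2))).image (fun p : Pr => p.1) ⊆
      ((Gs D A B).filter (fun p : ℕ => ¬ IsSquare ((D : ℤ) : ZMod p)) ∪ range 101) ∪
        (Int.gcd A B).primeFactors := by
    intro q hq
    rw [mem_image] at hq
    obtain ⟨p, hp, rfl⟩ := hq
    rw [mem_filter] at hp
    obtain ⟨-, h1, h2⟩ := hp
    simp only at h2
    rw [mem_union, mem_union, mem_range, mem_gcd hA, mem_filter, mem_Gs hA hB hAB]
    by_cases h3 : p.1 < 101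
    · exact Or.inl (Or.inr h3)
    · by_cases h4 : (((p.1 : ℕ) : ℤ) ∣ A ∧ ((p.1 : ℕ) : ℤ) ∣ B)
      · exact Or.inr ⟨p.2, h4⟩
      · refine Or.inl (Or.inl ⟨⟨p.2, ?_, by omega, ?_, h4⟩, h1⟩)
        · rcases h2 with h2 | h2 | h2
          · exact (h2.mul_right B).mul_right _
          · exact (h2.mul_left A).mul_right _
          · exact h2.mul_left _
        · intro h5
          apply h1
          rw [(ZMod.intCast_zmod_eq_zero_iff_dvd _ _).2 h5]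
          exact ⟨0, by ring⟩
  have h2 := card_le_card h
  rw [card_image_of_injective _ Subtype.val_injective] at h2
  have h3 := h2.trans ((card_union_le _ _).trans (Nat.add_le_add_right (card_union_le _ _) _))
  rw [card_range] at h3
  exact_mod_cast h3

/-- **many classes for a pair** -/
theorem big_of {D : ℤ} (hD0 : D ≠ 0) {n K : ℕ} {x : ℤ × ℤ} (hx : x ∈ Sq n) (hne : x.1 ≠ x.2)
    (hT : (TA n x.1 x.2).card < K) {k : ℝ} (hk : k + (4 * K + 454 + 3 * D.natAbs) < HH D n x) :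
    Big D k x.1 x.2 := by
  classical
  obtain ⟨A, B⟩ := x
  simp only at hne hT ⊢
  have hx' := hx
  unfold Sq at hx'
  rw [mem_product, mem_Ioc, mem_Ioc] at hx'
  obtain ⟨⟨a1, a2⟩, b1, b2⟩ := hx'
  simp only at a1 a2 b1 b2
  have hA : A ≠ 0 := by omega
  have hB : B ≠ 0 := by omega
  obtain ⟨V, hV1, hV2⟩ := det D A B hA hB hne (SS D A B) (Gs D A B)
    (fun p hp => ((mem_SS hD0 hA).1 hp).1)
    (fun p hp => ⟨((mem_Gs hA hB hne).1 hp).1, ((mem_Gs hA hB hne).1 hp).2.2.1⟩)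
    (fun p hp hp' => by
      obtain ⟨-, -, c1, c2, c3⟩ := (mem_Gs hA hB hne).1 hp
      rcases ((mem_SS hD0 hA).1 hp').2 with h | h | h
      · omega
      · exact c2 h
      · exact c3 h)
    (fun p hp => ⟨((mem_Gs hA hB hne).1 hp).2.1, ((mem_Gs hA hB hne).1 hp).2.2.2.2⟩)
    (fun p hp hS hG => by
      rw [mem_SS hD0 hA] at hS
      rw [mem_Gs hA hB hne] at hG
      have c1 : 100 < p := by
        by_contra h
        exact hS ⟨hp, Or.inl (by omega)⟩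
      refine ⟨c1, fun h => hG ⟨hp, h, c1, fun h' => hS ⟨hp, Or.inr (Or.inl h')⟩,
        fun h' => hS ⟨hp, Or.inr (Or.inr h')⟩⟩⟩)
  refine ⟨Gs D A B, fun p hp => ((mem_Gs hA hB hne).1 hp).1,
    fun p hp => ((mem_Gs hA hB hne).1 hp).2.2.2.1, V, ?_, hV2⟩
  have h1 := HH_le (D := D) (n := n) hA hB hne
  have h2 := card_SS D A B
  have h3 := card_gcd hx
  simp only at h3
  have h4 : (((Gs D A B).filter (fun p : ℕ => ¬ IsSquare ((D : ℤ) : ZMod p))).card : ℝ) ≤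
      Module.finrank (ZMod 2) V + 3 * (SS D A B).card + 6 := by exact_mod_cast hV1
  have h5 : ((SS D A B).card : ℝ) ≤ 101 + D.natAbs + (Int.gcd A B).primeFactors.card := by
    exact_mod_cast h2
  have h6 : ((Int.gcd A B).primeFactors.card : ℝ) ≤ 11 + (TA n A B).card := by exact_mod_cast h3
  have h7 : ((TA n A B).card : ℝ) ≤ K := by exact_mod_cast hT.le
  linarith

open Classical in
/-- **almost all pairs** -/
theorem main {D : ℤ} (hD : ¬ IsSquare D) (z : ℝ) {ε : ℝ} (hε : 0 < ε) : ∀ᶠ n : ℕ in atTop,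
    (((Sq n).filter (fun x : ℤ × ℤ => x.1 ≠ x.2 ∧
      ¬ Big D (3 / 2 * ell n + z * √(3 / 2 * ell n)) x.1 x.2)).card : ℝ) ≤
      ((gaussianReal 0 1).real (Set.Iic z) + ε) * (n : ℝ) ^ 2 := by
  have hD0 : D ≠ 0 := by
    rintro rfl
    exact hD ⟨0, by norm_num⟩
  -- the right continuity of the distribution function
  obtain ⟨δ, hδ, hδ2⟩ : ∃ δ : ℝ, 0 < δ ∧ (gaussianReal 0 1).real (Set.Iic (z + δ)) <
      (gaussianReal 0 1).real (Set.Iic z) + ε / 3 := by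
    have h1 := (cdf (gaussianReal 0 1)).right_continuous z
    rw [Metric.continuousWithinAt_iff] at h1
    obtain ⟨δ, hδ, h2⟩ := h1 (ε / 3) (by positivity)
    refine ⟨δ / 2, by positivity, ?_⟩
    have h3 := h2 (x := z + δ / 2) (by rw [Set.mem_Ici]; linarith) (by
      rw [Real.dist_eq, add_sub_cancel_left, abs_of_pos (by positivity)]
      linarith)
    rw [Real.dist_eq, cdf_eq_real, cdf_eq_real] at h3
    linarith [(abs_lt.1 h3).2]
  obtain ⟨K, hK⟩ := exists_nat_gt (12 / ε)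
  have hK0 : (0 : ℝ) < K := lt_trans (by positivity) hK
  have hK1 : 0 < K := by exact_mod_cast hK0
  set C1 : ℝ := 4 * K + 454 + 3 * D.natAbs with hC1
  have herr : ∀ᶠ n : ℕ in atTop, (C1 + (3 / 2 * ell n - SM D n)) / √(3 / 2 * ell n) ≤ δ := by
    have h1 : Tendsto (fun n => (C1 * (√(ell n))⁻¹ - (SM D n - 3 / 2 * ell n) / √(ell n)) *
        (√(3 / 2))⁻¹) atTop (𝓝 0) := by
      have := (((sqrt_inv.const_mul C1).sub (SM_lim hD)).mul_const (√(3 / 2))⁻¹)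
      simpa using this
    have h2 : Tendsto (fun n : ℕ => (C1 + (3 / 2 * ell n - SM D n)) / √(3 / 2 * ell n)) atTop
        (𝓝 0) := by
      refine (tendsto_congr fun n => ?_).1 h1
      rw [Real.sqrt_mul (by norm_num : (0 : ℝ) ≤ 3 / 2)]
      simp only [div_eq_mul_inv, mul_inv, inv_inv]
      ring
    exact h2.eventually_le_const hδ
  have hlaw : ∀ᶠ n : ℕ in atTop, (((Sq n).filter (fun x => ZI D n x 0 ≤ z + δ)).card : ℝ) /
      (n : ℝ) ^ 2 < (gaussianReal 0 1).real (Set.Iic z) + 2 * ε / 3 :=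
    (law_I hD (z + δ)).eventually_lt_const (by linarith)
  filter_upwards [herr, hlaw, eventually_ge_atTop 1, tendsto_ell.eventually_gt_atTop 0]
    with n h1 h2 h3 h4
  have hn : (0 : ℝ) < (n : ℝ) ^ 2 := by
    have : (0 : ℝ) < n := by exact_mod_cast h3
    positivity
  have hs : 0 < √(3 / 2 * ell n) := Real.sqrt_pos.2 (by positivity)
  have hsub : (Sq n).filter (fun x : ℤ × ℤ => x.1 ≠ x.2 ∧
      ¬ Big D (3 / 2 * ell n + z * √(3 / 2 * ell n)) x.1 x.2) ⊆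
      (Sq n).filter (fun x => ZI D n x 0 ≤ z + δ) ∪
        (Sq n).filter (fun x : ℤ × ℤ => K ≤ (TA n x.1 x.2).card) := by
    intro x hx
    rw [mem_filter] at hx
    obtain ⟨hx1, hx2, hx3⟩ := hx
    rw [mem_union, mem_filter, mem_filter]
    by_cases hT : K ≤ (TA n x.1 x.2).card
    · exact Or.inr ⟨hx1, hT⟩
    · left
      refine ⟨hx1, ?_⟩
      have h5 : HH D n x ≤ 3 / 2 * ell n + z * √(3 / 2 * ell n) + C1 := by
        by_contra hcon
        exact hx3 (big_of hD0 hx1 hx2 (not_le.1 hT) (not_le.1 hcon))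
      have h6 : ZI D n x 0 = (HH D n x - SM D n) / √(3 / 2 * ell n) := by
        unfold ZI HH SM
        rw [sum_sub_distrib]
      rw [h6]
      have h7 : (HH D n x - SM D n) / √(3 / 2 * ell n) ≤
          (z * √(3 / 2 * ell n) + (C1 + (3 / 2 * ell n - SM D n))) / √(3 / 2 * ell n) :=
        div_le_div_of_nonneg_right (by linarith) hs.le
      rw [add_div, mul_div_assoc, div_self hs.ne', mul_one] at h7
      linarith
  have h5 : (((Sq n).filter (fun x : ℤ × ℤ => x.1 ≠ x.2 ∧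
      ¬ Big D (3 / 2 * ell n + z * √(3 / 2 * ell n)) x.1 x.2)).card : ℝ) ≤
      ((Sq n).filter (fun x => ZI D n x 0 ≤ z + δ)).card +
        ((Sq n).filter (fun x : ℤ × ℤ => K ≤ (TA n x.1 x.2).card)).card := by
    exact_mod_cast (card_le_card hsub).trans (card_union_le _ _)
  have h6 := many_TA hK1 n
  rw [div_lt_iff₀ hn] at h2
  have h7 : 4 * (n : ℝ) ^ 2 / K ≤ ε / 3 * (n : ℝ) ^ 2 := by
    rw [div_le_iff₀ hK0]
    rw [div_lt_iff₀ hε] at hK
    nlinarith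
  linarith

end Pool.Agent.X217.QB
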